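import Mathlib

namespace Pool.Agent.P.MP_9db4f5_nt

def F4 {R : Type*} [CommRing R]
    (P Z b1 b2 b3 b4 E1 E2 E3 E4 L12 L13 L14 L23 L24 L34 : R) : R :=
  b1 * b2 * b3 * b4 + (b1 * b2 * b3 + b1 * b2 * b4 + b1 * b3 * b4 + b2 * b3 * b4) * Z +
      E1 * (b2 * b3 * b4 + (b2 * b3 + b2 * b4 + b3 * b4) * Z) +
      E2 * (b1 * b3 * b4 + (b1 * b3 + b1 * b4 + b3 * b4) * Z) +
      E3 * (b1 * b2 * b4 + (b1 * b2 + b1 * b4 + b2 * b4) * Z) +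
      E4 * (b1 * b2 * b3 + (b1 * b2 + b1 * b3 + b2 * b3) * Z) +
      (E1 * E2 * (b3 * b4) + E1 * E3 * (b2 * b4) + E1 * E4 * (b2 * b3) + E2 * E3 * (b1 * b4) +
        E2 * E4 * (b1 * b3) + E3 * E4 * (b1 * b2)) +
      P ^ 2 * Z * (L12 * (b3 + b4) + L13 * (b2 + b4) + L14 * (b2 + b3) +
        L23 * (b1 + b4) + L24 * (b1 + b3) + L34 * (b1 + b2))

lemma F4_two {R : Type*} [CommRing R]
    (P Z b1 b2 b3 b4 E1 E2 E3 E4 L12 L13 L14 L23 L24 L34 : R) :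
    2 * F4 P Z b1 b2 b3 b4 E1 E2 E3 E4 L12 L13 L14 L23 L24 L34 =
    2 * F4 0 Z b1 b2 b3 b4 E1 E2 E3 E4 0 0 0 0 0 0 +
      Z * (P ^ 2 * (2 * L12) * (b3 + b4) + P ^ 2 * (2 * L13) * (b2 + b4) +
        P ^ 2 * (2 * L14) * (b2 + b3) + P ^ 2 * (2 * L23) * (b1 + b4) +
        P ^ 2 * (2 * L24) * (b1 + b3) + P ^ 2 * (2 * L34) * (b1 + b2)) := by
  unfold F4
  ring

section
variable {R : Type*} [CommRing R] (P j a e u : R) (hP : P ^ 3 = 0) (hj : j ^ 2 = -1)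
  (hu : u = 1 + P * a)
include hP hj hu

lemma alg1 (L11 L12 L22 : R) (h11 : P ^ 2 * (2 * L11) = 0)
    (h12 : P ^ 2 * (2 * L12) = P ^ 2 * (2 * a ^ 2 - 2 * j * e + 2 * j * a ^ 2))
    (h22 : P ^ 2 * (2 * L22) = P ^ 2 * (-4 * a ^ 2 - 4 * j * e + 4 * j * a ^ 2)) :
    2 * F4 P (-((1 - j) * u)) ((1 - j) * u) ((1 - j) * u) ((1 + j) * u) ((1 + j) * u) 0 0
      (2 * j * u * (u - 1)) (2 * j * u * (u - 1)) L11 L12 L12 L12 L12 L22 =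
    2 * (-4 + -32*P*a + 16*P^2*e + -112*P^2*a^2 + 8*j + 32*j*P*a + 8*j*P^2*e + 48*j*P^2*a^2) := by
  rw [F4_two, h11, h12, h22]
  subst hu
  unfold F4
  clear * - hP hj
  grind

lemma alg2 (L12 L13 L14 L23 L24 L34 : R)
    (h12 : P ^ 2 * (2 * L12) = P ^ 2 * (2 * a ^ 2 - 2 * j * e + 2 * j * a ^ 2))
    (h13 : P ^ 2 * (2 * L13) = P ^ 2 * (-e - j * e + 2 * j * a ^ 2))
    (h14 : P ^ 2 * (2 * L14) = P ^ 2 * (-2 * e - 2 * j * e))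
    (h23 : P ^ 2 * (2 * L23) = P ^ 2 * (-e - 2 * a ^ 2 - 3 * j * e))
    (h24 : P ^ 2 * (2 * L24) = P ^ 2 * (-4 * j * e - 8 * j * a ^ 2))
    (h34 : P ^ 2 * (2 * L34) = P ^ 2 * (-2 * e - 6 * a ^ 2 - 2 * j * e + 6 * j * a ^ 2)) :
    2 * F4 P (-((1 - j) * u)) ((1 - j) * u) ((1 + j) * u) 1 (2 * u ^ 2) 0
      (2 * j * u * (u - 1)) ((1 - j) * (u - 1)) (-2 * u * (u - 1)) L12 L13 L14 L23 L24 L34 =
    2 * (-6 + -30*P*a + 27*P^2*e + -60*P^2*a^2 + 10*j + 42*j*P*a + 9*j*P^2*e + 54*j*P^2*a^2) := by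
  rw [F4_two, h12, h13, h14, h23, h24, h34]
  subst hu
  unfold F4
  clear * - hP hj
  grind

lemma alg3 (L33 L34 L44 : R)
    (h33 : P ^ 2 * (2 * L33) = P ^ 2 * (-2 * e - 2 * j * e))
    (h34 : P ^ 2 * (2 * L34) = P ^ 2 * (-2 * e - 6 * a ^ 2 - 2 * j * e + 6 * j * a ^ 2))
    (h44 : P ^ 2 * (2 * L44) = P ^ 2 * (-4 * e + 8 * a ^ 2 - 4 * j * e)) :
    2 * F4 P (-((1 - j) * u)) 1 1 (2 * u ^ 2) (2 * u ^ 2) ((1 - j) * (u - 1)) ((1 - j) * (u - 1))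
      (-2 * u * (u - 1)) (-2 * u * (u - 1)) L33 L34 L34 L34 L34 L44 =
    2 * (-8 + -16*P*a + 40*P^2*e + -8*P^2*a^2 + 12*j + 56*j*P*a + 60*j*P^2*a^2) := by
  rw [F4_two, h33, h34, h44]
  subst hu
  unfold F4
  clear * - hP hj
  grind

lemma alg4 (L : R) (h : P ^ 2 * L = P ^ 2 * (-4 * e + 4 * a ^ 2 - 4 * j * a ^ 2)) :
    (2 * u ^ 2) ^ 2 + 2 * (2 * u ^ 2) * (2 * u ^ 2 * ((1 - j) * u) - -(2 * u ^ 2 * j) - 2 * u ^ 2)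
      + P ^ 2 * L =
    4 + 24*P*a + -4*P^2*e + 60*P^2*a^2 + -8*j*P*a + -36*j*P^2*a^2 := by
  subst hu
  grind

omit hj in
lemma alg5 (b v T1 T2 T3 T4 : R) (hv : v = 1 + P * b)
    (h1 : 2 * T1 = 2 * (-4 + -32*P*a + 16*P^2*e + -112*P^2*a^2 + 8*j + 32*j*P*a + 8*j*P^2*e +
      48*j*P^2*a^2))
    (h2 : 2 * T2 = 2 * (-6 + -30*P*a + 27*P^2*e + -60*P^2*a^2 + 10*j + 42*j*P*a + 9*j*P^2*e +
      54*j*P^2*a^2))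
    (h3 : 2 * T3 = 2 * (-8 + -16*P*a + 40*P^2*e + -8*P^2*a^2 + 12*j + 56*j*P*a + 60*j*P^2*a^2))
    (h4 : T4 = 4 + 24*P*a + -4*P^2*e + 60*P^2*a^2 + -8*j*P*a + -36*j*P^2*a^2) :
    54 * v ^ 2 * T1 - 48 * u ^ 2 * v * T2 + 12 * u ^ 4 * T3 - 3 * T4 =
      -36 * u ^ 10 * v ^ 4 + 60 * P ^ 2 * e +
      j * (96 + 384*P*b + 24*P*a + 432*P^2*b^2 + 480*P^2*a*b + -132*P^2*a^2) := by
  have e1 : 54 * v ^ 2 * T1 - 48 * u ^ 2 * v * T2 + 12 * u ^ 4 * T3 - 3 * T4 =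
    27 * v ^ 2 * (2 * T1) - 24 * u ^ 2 * v * (2 * T2) + 6 * u ^ 4 * (2 * T3) - 3 * T4 := by ring
  rw [e1, h1, h2, h3, h4]
  subst hu hv
  clear * - hP
  grind

end

end Pool.Agent.P.MP_9db4f5_nt
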