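import Mathlib

namespace Pool.Agent.P.MP_9db4f5_nt

open Finset

lemma cancel3 {m z e : ℕ} (hm : m ≠ 0) (h : 3 ^ (e + padicValNat 3 m) ∣ m * z) : 3 ^ e ∣ z := by
  rcases eq_or_ne z 0 with rfl | hz
  · simp
  rw [padicValNat_dvd_iff_le (mul_ne_zero hm hz), padicValNat.mul hm hz] at h
  rw [padicValNat_dvd_iff_le hz]
  omega

lemma cb_val (k B : ℕ) (hB : 2 * k < B) : padicValNat 3 k.centralBinom =
    #{i ∈ Finset.Ico 1 B | 3 ^ i ≤ k % 3 ^ i + k % 3 ^ i} := by
  have h := padicValNat_choose' (p := 3) (n := k) (k := k) (b := B)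
    (lt_of_le_of_lt (Nat.log_le_self _ _) (by omega))
  rw [Nat.centralBinom, two_mul]
  exact h

lemma cb_val_ge (k : ℕ) (S : Finset ℕ) (hS : ∀ i ∈ S, 1 ≤ i ∧ 3 ^ i ≤ k % 3 ^ i + k % 3 ^ i) :
    #S ≤ padicValNat 3 k.centralBinom := by
  rw [cb_val k (2 * k + 1) (by omega)]
  apply card_le_card
  intro i hi
  obtain ⟨h1, h2⟩ := hS i hi
  simp only [mem_filter, mem_Ico]
  refine ⟨⟨h1, ?_⟩, h2⟩
  have := Nat.mod_le k (3 ^ i)
  have h3 : i < 3 ^ i := Nat.lt_pow_self (by norm_num)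
  omega

lemma mod_of_dvd_add {N k c : ℕ} (h : N ∣ k + c) (hc : 0 < c) (hN : c ≤ N) : k % N = N - c := by
  obtain ⟨t, ht⟩ := h
  have ht0 : t ≠ 0 := by
    rintro rfl
    omega
  obtain ⟨t, rfl⟩ : ∃ s, t = s + 1 := ⟨t - 1, by omega⟩
  have : k = (N - c) + N * t := by
    rw [mul_add, mul_one] at ht
    omega
  rw [this, Nat.add_mul_mod_self_left, Nat.mod_eq_of_lt (by omega)]

lemma pow3_ge (l : ℕ) : 4 * l + 6 ≤ 3 ^ (l + 2) := by
  induction l with
  | zero => norm_num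
  | succ l ih =>
    rw [show l + 1 + 2 = (l + 2) + 1 from rfl, pow_succ]
    omega

lemma cb_ge (n l b : ℕ) (h : 3 ^ b ∣ 2 * n + 3 + 2 * l) :
    b - (l + 1) ≤ padicValNat 3 (2 * n).centralBinom := by
  have := cb_val_ge (2 * n) (Ico (l + 2) (b + 1)) (by
    intro i hi
    rw [mem_Ico] at hi
    refine ⟨by omega, ?_⟩
    have h1 : 3 ^ i ∣ 2 * n + (2 * l + 3) := by
      have : 3 ^ i ∣ 3 ^ b := pow_dvd_pow 3 (by omega)
      have h2 := this.trans h
      rwa [show 2 * n + 3 + 2 * l = 2 * n + (2 * l + 3) by ring] at h2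
    have h2 : 3 ^ (l + 2) ≤ 3 ^ i := Nat.pow_le_pow_right (by norm_num) hi.1
    have h3 := pow3_ge l
    rw [mod_of_dvd_add h1 (by omega) (by omega)]
    omega)
  rw [Nat.card_Ico] at this
  omega

section
variable (z : ℕ → ℕ) (h0 : z 0 = 0)
  (hz : ∀ n, (2 * n + 1) * z (n + 1) =
    324 * n * z n + (7 * n + 1) * n.centralBinom * (2 * n).centralBinom)
include h0 hz

lemma key_ind (n : ℕ) : ∀ l, 1 ≤ l →
    3 ^ (padicValNat 3 (2 * n + 1 + 2 * l) + padicValNat 3 l.factorial - 4 * l) ∣ z n := by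
  induction n with
  | zero => intro l _; simp [h0]
  | succ n ih =>
    intro l hl
    set a := padicValNat 3 (2 * n + 1) with ha
    set b := padicValNat 3 (2 * (n + 1) + 1 + 2 * l) with hb
    have hf : padicValNat 3 (l + 1).factorial =
        padicValNat 3 (l + 1) + padicValNat 3 l.factorial := by
      rw [Nat.factorial_succ, padicValNat.mul (by omega) (Nat.factorial_ne_zero l)]
    have hlt : padicValNat 3 (l + 1).factorial < l + 1 :=
      padicValNat_factorial_lt_of_ne_zero 3 (by omega)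
    have da : 3 ^ a ∣ 2 * n + 1 := pow_padicValNat_dvd
    have db : 3 ^ b ∣ 2 * (n + 1) + 1 + 2 * l := pow_padicValNat_dvd
    have hc : ∀ j, 3 ^ j ∣ 2 * (l + 1) → j ≤ padicValNat 3 (l + 1) := by
      intro j hj
      rw [← padicValNat_dvd_iff_le (by omega)]
      exact (Nat.Coprime.pow_left j (by norm_num : Nat.Coprime 3 2)).dvd_of_dvd_mul_left hj
    have e : 2 * (n + 1) + 1 + 2 * l = (2 * n + 1) + 2 * (l + 1) := by ring
    rcases le_or_gt b a with hab | hab
    · have h1 : 3 ^ b ∣ 2 * (l + 1) := by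
        have h2 : 3 ^ b ∣ 2 * n + 1 := (pow_dvd_pow 3 hab).trans da
        rw [e] at db
        exact (Nat.dvd_add_right h2).1 db
      have := hc b h1
      have : b + padicValNat 3 l.factorial - 4 * l = 0 := by omega
      rw [this]
      simp
    · have h1 : 3 ^ a ∣ 2 * (l + 1) := by
        have h2 : 3 ^ a ∣ 2 * (n + 1) + 1 + 2 * l := (pow_dvd_pow 3 hab.le).trans db
        rw [e] at h2
        exact (Nat.dvd_add_right da).1 h2
      have h2 := hc a h1
      by_cases hzero : b + padicValNat 3 l.factorial - 4 * l = 0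
      · rw [hzero]; simp
      apply cancel3 (m := 2 * n + 1) (by omega)
      rw [← ha, hz n]
      apply dvd_add
      · have ih' := ih (l + 1) (by omega)
        rw [← e, ← hb] at ih'
        have h3 : 3 ^ (4 + (b + padicValNat 3 (l + 1).factorial - 4 * (l + 1))) ∣
            324 * n * z n := by
          rw [pow_add]
          apply mul_dvd_mul _ ih'
          exact Dvd.dvd.mul_right (by norm_num) n
        exact (pow_dvd_pow 3 (by omega)).trans h3
      · have h3 := cb_ge n l b (by rwa [show 2 * n + 3 + 2 * l = 2 * (n + 1) + 1 + 2 * l by ring])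
        apply Dvd.dvd.mul_left
        rw [padicValNat_dvd_iff_le (Nat.centralBinom_ne_zero _)]
        omega

lemma key_one (k : ℕ) : 3 ^ padicValNat 3 (2 * k + 3) ∣ 324 * k * z k := by
  have h := key_ind z h0 hz k 1 le_rfl
  have h3 : 3 ^ (4 + (padicValNat 3 (2 * k + 1 + 2 * 1) + padicValNat 3 (Nat.factorial 1) - 4 * 1)) ∣
      324 * k * z k := by
    rw [pow_add]
    apply mul_dvd_mul _ h
    exact Dvd.dvd.mul_right (by norm_num) k
  have e : 2 * k + 1 + 2 * 1 = 2 * k + 3 := by ring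
  rw [e] at h3
  exact (pow_dvd_pow 3 (by omega)).trans h3

end

lemma carry_mid (k a i : ℕ) (h : 3 ^ a ∣ 2 * k + 3) (h2 : 2 ≤ i) (hi : i ≤ a) :
    3 ^ i ≤ (2 * k) % 3 ^ i + (2 * k) % 3 ^ i := by
  have h1 : 3 ^ i ∣ 2 * k + 3 := (pow_dvd_pow 3 hi).trans h
  have h3 : 3 ^ 2 ≤ 3 ^ i := Nat.pow_le_pow_right (by norm_num) h2
  rw [mod_of_dvd_add h1 (by omega) (by omega)]
  omega

lemma val_nonpow (k a : ℕ) (h : 3 ^ a ∣ 2 * k + 3) (hne : 2 * k + 3 ≠ 3 ^ a) :
    3 ^ a ∣ k.centralBinom * (2 * k).centralBinom := by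
  rcases Nat.eq_zero_or_pos a with rfl | ha
  · simp
  have h3 : 3 ^ 1 ≤ 3 ^ a := Nat.pow_le_pow_right (by norm_num) ha
  have hk : 3 ^ a ≤ 2 * k := by
    obtain ⟨u, hu⟩ := h
    have : 2 ≤ u := by
      rcases u with _ | _ | u
      · omega
      · omega
      · omega
    have : 3 ^ a * 2 ≤ 3 ^ a * u := Nat.mul_le_mul_left _ this
    omega
  set j := Nat.log 3 (2 * k) with hj
  have hj1 : 3 ^ j ≤ 2 * k := Nat.pow_log_le_self 3 (by omega)
  have hj2 : 2 * k < 3 ^ (j + 1) := Nat.lt_pow_succ_log_self (by norm_num) _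
  have haj : a ≤ j := by
    by_contra hc
    have : 3 ^ (j + 1) ≤ 3 ^ a := Nat.pow_le_pow_right (by norm_num) (by omega)
    omega
  rw [padicValNat_dvd_iff_le (mul_ne_zero (Nat.centralBinom_ne_zero _) (Nat.centralBinom_ne_zero _)),
    padicValNat.mul (Nat.centralBinom_ne_zero _) (Nat.centralBinom_ne_zero _)]
  rcases le_or_gt (3 ^ (j + 1)) (4 * k) with h4 | h4
  · have := cb_val_ge (2 * k) (insert (j + 1) (Ico 2 (a + 1))) (by
      intro i hi
      rw [mem_insert, mem_Ico] at hi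
      rcases hi with rfl | hi
      · refine ⟨by omega, ?_⟩
        rw [Nat.mod_eq_of_lt hj2]
        omega
      · exact ⟨by omega, carry_mid k a i h hi.1 (by omega)⟩)
    rw [card_insert_of_notMem (by simp; omega), Nat.card_Ico] at this
    omega
  · have h5 := cb_val_ge (2 * k) (Ico 2 (a + 1)) (by
      intro i hi
      rw [mem_Ico] at hi
      exact ⟨by omega, carry_mid k a i h hi.1 (by omega)⟩)
    have h6 := cb_val_ge k {j} (by
      intro i hi
      rw [mem_singleton] at hi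
      subst hi
      refine ⟨by omega, ?_⟩
      rw [pow_succ] at h4
      rw [Nat.mod_eq_of_lt (by omega)]
      omega)
    rw [Nat.card_Ico] at h5
    rw [card_singleton] at h6
    omega

lemma val_pow (k a : ℕ) (hk : 1 ≤ k) (h : 2 * k + 3 = 3 ^ a) :
    padicValNat 3 (k.centralBinom * (2 * k).centralBinom) = a - 1 := by
  have ha : 2 ≤ a := by
    rcases a with _ | _ | a
    · omega
    · omega
    · omega
  have ha2 : a < 3 ^ a := Nat.lt_pow_self (by norm_num)
  rw [padicValNat.mul (Nat.centralBinom_ne_zero _) (Nat.centralBinom_ne_zero _),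
    cb_val k (2 * k + 1) (by omega), cb_val (2 * k) (4 * k + 4) (by omega)]
  have e1 : {i ∈ Finset.Ico 1 (2 * k + 1) | 3 ^ i ≤ k % 3 ^ i + k % 3 ^ i} = ∅ := by
    apply filter_eq_empty_iff.2
    intro i hi
    rw [mem_Ico] at hi
    rw [not_le]
    rcases le_or_gt i a with hia | hia
    · have h1 : 3 ^ i ∣ 2 * k + 3 := h ▸ pow_dvd_pow 3 hia
      have h3 : 3 ^ 1 ≤ 3 ^ i := Nat.pow_le_pow_right (by norm_num) hi.1
      have h4 : k % 3 ^ i < 3 ^ i := Nat.mod_lt _ (by omega)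
      have h5 : 3 ^ i ∣ 2 * (k % 3 ^ i) + 3 := by
        have h6 := Nat.mod_add_div k (3 ^ i)
        have h7 : 2 * k + 3 = 2 * (k % 3 ^ i) + 3 + 3 ^ i * (2 * (k / 3 ^ i)) := by
          nth_rewrite 1 [← h6]
          ring
        rw [h7] at h1
        exact (Nat.dvd_add_left (dvd_mul_right _ _)).1 h1
      obtain ⟨c, hc⟩ := h5
      rcases c with _ | _ | _ | c
      · omega
      · omega
      · omega
      · have : 3 ^ i * 3 ≤ 3 ^ i * (c + 1 + 1 + 1) := Nat.mul_le_mul_left _ (by omega)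
        omega
    · have h3 : 3 ^ a ≤ 3 ^ i := Nat.pow_le_pow_right (by norm_num) hia.le
      have := Nat.mod_le k (3 ^ i)
      omega
  have e2 : {i ∈ Finset.Ico 1 (4 * k + 4) | 3 ^ i ≤ (2 * k) % 3 ^ i + (2 * k) % 3 ^ i} =
      Ico 2 (a + 1) := by
    ext i
    simp only [mem_filter, mem_Ico]
    constructor
    · rintro ⟨⟨h1, -⟩, h2⟩
      constructor
      · by_contra hc
        have : i = 1 := by omega
        subst this
        have : 3 ∣ 3 ^ a := dvd_pow_self 3 (by omega)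
        omega
      · by_contra hc
        have h3 : 3 ^ (a + 1) ≤ 3 ^ i := Nat.pow_le_pow_right (by norm_num) (by omega)
        have := Nat.mod_le (2 * k) (3 ^ i)
        rw [pow_succ] at h3
        omega
    · rintro ⟨h1, h2⟩
      exact ⟨⟨by omega, by omega⟩, carry_mid k a i (by rw [h]) h1 (by omega)⟩
  rw [e1, e2, Nat.card_Ico]
  simp only [card_empty]
  omega

section
variable (z : ℕ → ℕ) (h0 : z 0 = 0)
  (hz : ∀ n, (2 * n + 1) * z (n + 1) =
    324 * n * z n + (7 * n + 1) * n.centralBinom * (2 * n).centralBinom)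

include hz in
lemma four_dvd (k : ℕ) (hk : 1 ≤ k) : 4 ∣ z (k + 1) := by
  have h1 : 4 ∣ (2 * k + 1) * z (k + 1) := by
    rw [hz, mul_assoc (7 * k + 1)]
    apply dvd_add
    · exact (Dvd.dvd.mul_right (by norm_num) k).mul_right _
    · apply Dvd.dvd.mul_left
      exact mul_dvd_mul (Nat.two_dvd_centralBinom_of_one_le hk)
        (Nat.two_dvd_centralBinom_of_one_le (by omega))
  refine Nat.Coprime.dvd_of_dvd_mul_left ?_ h1
  have : Nat.Coprime 2 (2 * k + 1) := by simp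
  exact Nat.Coprime.pow_left 2 this

include hz in
lemma dvd81 (n : ℕ) : (2 * n + 1) ∣ 81 * z n := by
  have h1 : (2 * n + 1) ∣ 324 * n * z n := by
    have h2 : (2 * n + 1) ∣ (7 * n + 1) * n.centralBinom * (2 * n).centralBinom :=
      Dvd.dvd.mul_left (Nat.succ_dvd_centralBinom _) _
    have h3 : (2 * n + 1) ∣ 324 * n * z n + (7 * n + 1) * n.centralBinom * (2 * n).centralBinom := by
      rw [← hz]
      exact dvd_mul_right _ _
    exact (Nat.dvd_add_left h2).1 h3
  have e : 324 * n * z n = (2 * n) * (2 * (81 * z n)) := by ring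
  rw [e] at h1
  have c1 : Nat.Coprime (2 * n + 1) (2 * n) := by simp
  have c2 : Nat.Coprime (2 * n + 1) 2 := by simp
  exact c2.dvd_of_dvd_mul_left (c1.dvd_of_dvd_mul_left h1)

include h0 hz in
lemma main_nonpow (k : ℕ) (hk : 1 ≤ k) (h : ¬ ∃ a, 2 * (k + 1) + 1 = 3 ^ a) :
    4 * (2 * (k + 1) + 1) ∣ z (k + 1) := by
  have e : 2 * (k + 1) + 1 = 2 * k + 3 := by ring
  have h81 := dvd81 z hz (k + 1)
  rw [e] at h h81 ⊢
  have c4 : Nat.Coprime 4 (2 * k + 3) := by
    have : Nat.Coprime 2 (2 * k + 3) := by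
      rw [Nat.coprime_two_left]
      exact ⟨k + 1, by ring⟩
    exact Nat.Coprime.pow_left 2 this
  apply Nat.Coprime.mul_dvd_of_dvd_of_dvd c4 (four_dvd z hz k hk)
  set a := padicValNat 3 (2 * k + 3) with ha
  have da : 3 ^ a ∣ 2 * k + 3 := pow_padicValNat_dvd
  have nda : ¬ 3 ^ (a + 1) ∣ 2 * k + 3 := pow_succ_padicValNat_not_dvd (by omega)
  have h1 : 3 ^ a ∣ z (k + 1) := by
    rcases Nat.eq_zero_or_pos a with h00 | hpos
    · rw [h00]; simp
    have h2 : 3 ^ a ∣ (2 * k + 1) * z (k + 1) := by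
      rw [hz, mul_assoc (7 * k + 1)]
      exact dvd_add (key_one z h0 hz k)
        (Dvd.dvd.mul_left (val_nonpow k a da (fun hc => h ⟨a, hc⟩)) _)
    refine Nat.Coprime.dvd_of_dvd_mul_left (Nat.Coprime.pow_left a ?_) h2
    rw [Nat.Prime.coprime_iff_not_dvd Nat.prime_three]
    have : 3 ∣ 2 * k + 3 := (dvd_pow_self 3 (by omega)).trans da
    omega
  obtain ⟨u, hu⟩ := da
  have cu : Nat.Coprime 3 u := by
    rw [Nat.Prime.coprime_iff_not_dvd Nat.prime_three]
    rintro ⟨w, rfl⟩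
    apply nda
    rw [hu, pow_succ, ← mul_assoc]
    exact dvd_mul_right _ _
  have h2 : u ∣ z (k + 1) := by
    have h3 : u ∣ 81 * z (k + 1) := (Dvd.intro_left _ hu.symm).trans h81
    refine Nat.Coprime.dvd_of_dvd_mul_left ?_ h3
    exact (Nat.Coprime.pow_left 4 cu).symm
  rw [hu]
  exact Nat.Coprime.mul_dvd_of_dvd_of_dvd (Nat.Coprime.pow_left a cu) h1 h2

include h0 hz in
lemma main_pow (k a : ℕ) (hk : 1 ≤ k) (h : 2 * (k + 1) + 1 = 3 ^ a) :
    ∃ w, 3 * z (k + 1) = 4 * (2 * (k + 1) + 1) * w ∧ ¬ 3 ∣ w := by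
  have e : 2 * (k + 1) + 1 = 2 * k + 3 := by ring
  rw [e] at h ⊢
  have ha : 2 ≤ a := by
    rcases a with _ | _ | a
    · omega
    · omega
    · omega
  have h3 : 3 ∣ 2 * k + 3 := h ▸ dvd_pow_self 3 (by omega)
  have hv := val_pow k a hk h
  have h1 := key_one z h0 hz k
  rw [h, padicValNat.prime_pow] at h1
  have hne : k.centralBinom * (2 * k).centralBinom ≠ 0 :=
    mul_ne_zero (Nat.centralBinom_ne_zero _) (Nat.centralBinom_ne_zero _)
  have c1 : Nat.Coprime 3 (2 * k + 1) := by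
    rw [Nat.Prime.coprime_iff_not_dvd Nat.prime_three]
    omega
  have c2 : Nat.Coprime 3 (7 * k + 1) := by
    rw [Nat.Prime.coprime_iff_not_dvd Nat.prime_three]
    omega
  have d1 : 3 ^ (a - 1) ∣ z (k + 1) := by
    have h2 : 3 ^ (a - 1) ∣ (2 * k + 1) * z (k + 1) := by
      rw [hz, mul_assoc (7 * k + 1)]
      refine dvd_add ((pow_dvd_pow 3 (by omega)).trans h1) (Dvd.dvd.mul_left ?_ _)
      rw [← hv]
      exact pow_padicValNat_dvd
    exact Nat.Coprime.dvd_of_dvd_mul_left (Nat.Coprime.pow_left _ c1) h2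
  have d2 : ¬ 3 ^ a ∣ z (k + 1) := by
    intro hc
    have h2 : 3 ^ a ∣ (2 * k + 1) * z (k + 1) := Dvd.dvd.mul_left hc _
    rw [hz, mul_assoc (7 * k + 1)] at h2
    have h4 := (Nat.dvd_add_right h1).1 h2
    have h5 := Nat.Coprime.dvd_of_dvd_mul_left (Nat.Coprime.pow_left _ c2) h4
    rw [padicValNat_dvd_iff_le hne] at h5
    omega
  have c4 : Nat.Coprime 4 (3 ^ (a - 1)) := Nat.Coprime.pow_right _ (by norm_num)
  obtain ⟨w, hw⟩ := Nat.Coprime.mul_dvd_of_dvd_of_dvd c4 (four_dvd z hz k hk) d1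
  have e2 : 3 ^ a = 3 * 3 ^ (a - 1) := by
    rw [← pow_succ']
    congr 1
    omega
  refine ⟨w, ?_, ?_⟩
  · rw [hw, h, e2]
    ring
  · rintro ⟨t, rfl⟩
    apply d2
    rw [hw, e2]
    exact ⟨4 * t, by ring⟩

end

end Pool.Agent.P.MP_9db4f5_nt
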