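import Pool.Agent.P.MP_9db4f5_nt.Rec
import Pool.Agent.P.MP_9db4f5_nt.Val

namespace Pool.Agent.P.MP_9db4f5_nt

open Finset

lemma multinom (k : ℕ) : (((4 * k).factorial : ℚ)) / ((k.factorial : ℚ)) ^ 4 =
    (k.centralBinom : ℚ) ^ 2 * ((2 * k).centralBinom : ℚ) := by
  have h : ∀ n : ℕ, ((2 * n).factorial : ℚ) = n.centralBinom * (n.factorial : ℚ) ^ 2 := by
    intro n
    have := Nat.choose_mul_factorial_mul_factorial (n := 2 * n) (k := n) (by omega)
    rw [show 2 * n - n = n by omega] at this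
    rw [← this, Nat.centralBinom]
    push_cast
    ring
  have h1 : (k.factorial : ℚ) ≠ 0 := by positivity
  rw [show 4 * k = 2 * (2 * k) by ring, h, h]
  field_simp

lemma ZZ_pos (m : ℕ) : 0 < ZZ m := by
  induction m with
  | zero => rw [ZZ_zero]; norm_num
  | succ m ih =>
    have h := ZZ_succ m
    have h2 : 0 < (2 * (m : ℤ) + 3) * ZZ (m + 1) := by
      rw [h]
      positivity
    exact (mul_pos_iff_of_pos_left (by positivity)).1 h2

noncomputable def zz : ℕ → ℕ
  | 0 => 0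
  | m + 1 => (ZZ m).toNat

lemma zz_succ (m : ℕ) : (zz (m + 1) : ℤ) = ZZ m := Int.toNat_of_nonneg (ZZ_pos m).le

lemma zz_rec (n : ℕ) : (2 * n + 1) * zz (n + 1) =
    324 * n * zz n + (7 * n + 1) * n.centralBinom * (2 * n).centralBinom := by
  rcases n with _ | m
  · simp [zz, ZZ_zero]
  · have h := ZZ_succ m
    rw [← zz_succ, ← zz_succ] at h
    zify
    rw [show 2 * (m + 1) = 2 * m + 2 by ring]
    linear_combination h

lemma T_eq (n : ℕ) : ∑ k ∈ range n, (7 * (k : ℚ) + 1) *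
    (((4 * k).factorial : ℚ) / (k.factorial : ℚ) ^ 4) * 648 ^ (n - 1 - k) =
    (n : ℚ) * n.centralBinom * zz n / 2 := by
  induction n with
  | zero => simp
  | succ n ih =>
    rw [sum_range_succ]
    have e : ∑ k ∈ range n, (7 * (k : ℚ) + 1) *
        (((4 * k).factorial : ℚ) / (k.factorial : ℚ) ^ 4) * 648 ^ (n + 1 - 1 - k) =
        648 * ∑ k ∈ range n, (7 * (k : ℚ) + 1) *
        (((4 * k).factorial : ℚ) / (k.factorial : ℚ) ^ 4) * 648 ^ (n - 1 - k) := by
      rw [mul_sum]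
      apply sum_congr rfl
      intro k hk
      have hk := mem_range.1 hk
      rw [show n + 1 - 1 - k = (n - 1 - k) + 1 by omega]
      ring
    rw [e, ih, multinom]
    have h1 : ((n : ℚ) + 1) * ((n + 1).centralBinom : ℚ) = 2 * (2 * n + 1) * n.centralBinom := by
      exact_mod_cast Nat.succ_mul_centralBinom_succ n
    have h2 : (2 * (n : ℚ) + 1) * zz (n + 1) =
      324 * n * zz n + (7 * n + 1) * n.centralBinom * (2 * n).centralBinom := by
      exact_mod_cast zz_rec n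
    simp only [Nat.add_sub_cancel, Nat.sub_self, pow_zero]
    push_cast
    linear_combination (-(zz (n + 1) : ℚ) / 2) * h1 - n.centralBinom * h2

lemma s_eq (n : ℕ) (hn : 1 ≤ n) : (∑ k ∈ range n, (7 * (k : ℚ) + 1) *
    (((4 * k).factorial : ℚ) / (k.factorial : ℚ) ^ 4) * 648 ^ (n - 1 - k)) /
      (2 * n * (2 * n + 1) * ((2 * n).choose n : ℚ)) = zz n / (4 * (2 * n + 1)) := by
  rw [T_eq, ← Nat.centralBinom_eq_two_mul_choose]
  have h1 : (n.centralBinom : ℚ) ≠ 0 := by exact_mod_cast Nat.centralBinom_ne_zero n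
  have h2 : (n : ℚ) ≠ 0 := by positivity
  field_simp
  ring

theorem q2 (n : ℕ) (hn : 2 ≤ n) (s : ℚ) (hs : s = zz n / (4 * (2 * n + 1))) :
    ((¬ ∃ a : ℕ, 2 * n + 1 = 3 ^ a) → ∃ m : ℤ, s = m) ∧
      ((∃ a : ℕ, 2 * n + 1 = 3 ^ a) → s.den = 3) := by
  obtain ⟨k, rfl⟩ : ∃ k, n = k + 1 := ⟨n - 1, by omega⟩
  constructor
  · intro h
    obtain ⟨w, hw⟩ := main_nonpow zz rfl zz_rec k (by omega) h
    refine ⟨w, ?_⟩
    rw [hs, hw]
    push_cast
    field_simp
  · rintro ⟨a, ha⟩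
    obtain ⟨w, hw, h3⟩ := main_pow zz rfl zz_rec k a (by omega) ha
    have e : s = ((w : ℤ) : ℚ) / ((3 : ℤ) : ℚ) := by
      have hw' : (3 : ℚ) * zz (k + 1) = 4 * (2 * ((k : ℚ) + 1) + 1) * w := by exact_mod_cast hw
      rw [hs]
      push_cast
      field_simp
      linear_combination hw'
    have hc : Nat.Coprime (w : ℤ).natAbs (3 : ℤ).natAbs := by
      simpa using ((Nat.Prime.coprime_iff_not_dvd Nat.prime_three).2 h3).symm
    have := Rat.den_div_eq_of_coprime (a := w) (b := 3) (by norm_num) hc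
    rw [← e] at this
    exact_mod_cast this

end Pool.Agent.P.MP_9db4f5_nt
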