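import Pool.Agent.P.MP_9db4f5_nt.Vals
import Pool.Agent.P.MP_9db4f5_nt.Alg

namespace Pool.Agent.P.MP_9db4f5_nt

open Finset Polynomial

lemma Tr4' {R : Type*} [CommRing R] {p : ℕ} (hp : p.Prime) (hP : (p : R) ^ 3 = 0)
    (z a1 a2 a3 a4 b1 b2 b3 b4 Z E1 E2 E3 E4 : R)
    (hb1 : a1 ^ p = b1) (hb2 : a2 ^ p = b2) (hb3 : a3 ^ p = b3) (hb4 : a4 ^ p = b4)
    (hZ : z ^ p = Z) (hE1 : (z + a1) ^ p - Z - b1 = E1) (hE2 : (z + a2) ^ p - Z - b2 = E2)
    (hE3 : (z + a3) ^ p - Z - b3 = E3) (hE4 : (z + a4) ^ p - Z - b4 = E4) :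
    Tr (2 * p) z ((X + C a1) ^ p * (X + C a2) ^ p * (X + C a3) ^ p * (X + C a4) ^ p) =
      F4 (p : R) Z b1 b2 b3 b4 E1 E2 E3 E4 (LL p z a1 a2) (LL p z a1 a3) (LL p z a1 a4)
        (LL p z a2 a3) (LL p z a2 a4) (LL p z a3 a4) := by
  obtain ⟨r, hr⟩ := Tr4 hp z a1 a2 a3 a4 b1 b2 b3 b4 Z E1 E2 E3 E4 hb1 hb2 hb3 hb4 hZ hE1 hE2
    hE3 hE4
  rw [hr, hP, zero_mul, add_zero, F4]

theorem core {R S : Type*} [CommRing R] [CommRing S] (f : R →+* S) (m : ℕ)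
    [hp : Fact (m + 1).Prime] [CharP S (m + 1)] (h3 : 3 < m + 1)
    (hP : ((m + 1 : ℕ) : R) ^ 3 = 0) (hker : ∀ x, f x = 0 → ((m + 1 : ℕ) : R) ^ 2 * x = 0)
    (I χ u a v b E : R) (hI : I ^ 2 = -1) (hχ : χ ^ 2 = 1) (hj : I ^ (m + 1) = χ * I)
    (h1 : (1 + I) ^ (m + 1) = (1 + χ * I) * u) (h2 : (1 - I) ^ (m + 1) = (1 - χ * I) * u)
    (h2p : (2 : R) ^ (m + 1) = 2 * u ^ 2) (h3p : (3 : R) ^ (m + 1) = 3 * v)
    (hu : u = 1 + (m + 1 : ℕ) * a) (hv : v = 1 + (m + 1 : ℕ) * b)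
    (hE : ∑ k ∈ range (m + 1), (-1) ^ k * (2 * (k : S) + 1) ^ (m + 1 - 3) = f E)
    (hl1 : l1 (m + 1) (1 + f I) 1 = -(1 + f χ * f I) * f a)
    (hl2 : l1 (m + 1) (1 - f I) 1 = -(1 - f χ * f I) * f a)
    (hl3 : l1 (m + 1) (-1 : S) 1 = -4 * f a) (Q : R[X])
    (hQ : 3 * (X ^ 2 + 2 * X + 2) * Q = 6 * (3 * (X ^ 2 + 2 * X + 2)) ^ (2 * (m + 1)) -
      8 * ((3 * (X ^ 2 + 2 * X + 2)) ^ (m + 1) * (2 * (X ^ 2 + 3 * X + 2)) ^ (m + 1)) +
      3 * (2 * (X ^ 2 + 3 * X + 2)) ^ (2 * (m + 1)) - 3 * (X ^ 2 + 2) ^ (2 * (m + 1))) :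
    6 * (χ * I) * u ^ 2 * (Q.coeff (2 * m) + (1 + I) * Q.coeff (2 * m + 1)) =
      -36 * u ^ 10 * v ^ 4 + 60 * (m + 1 : ℕ) ^ 2 * (χ * E) +
      χ * I * (96 + 384 * (m + 1 : ℕ) * b + 24 * (m + 1 : ℕ) * a + 432 * (m + 1 : ℕ) ^ 2 * b ^ 2 +
        480 * (m + 1 : ℕ) ^ 2 * a * b + -132 * (m + 1 : ℕ) ^ 2 * a ^ 2) := by
  have hm : 2 * (m + 1) = 2 * m + 1 + 1 := by ring
  have hA : (X ^ 2 + 2 * X + 2 : R[X]) = (X + C (1 - I)) * (X + C (1 + I)) := by
    have : (C I : R[X]) ^ 2 = -1 := by rw [← C_pow, hI]; simp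
    simp only [map_sub, map_add, map_one]
    linear_combination this
  have hD : (X ^ 2 + 3 * X + 2 : R[X]) = (X + C 1) * (X + C 2) := by
    simp only [map_one, map_ofNat]
    ring
  have hL : Tr (2 * (m + 1)) (-1 + I) (3 * (X ^ 2 + 2 * X + 2) * Q) =
      -(3 * (Q.coeff (2 * m) + (1 + I) * Q.coeff (2 * m + 1))) * (-1 + I) ^ (2 * (m + 1)) := by
    have e : 3 * (X ^ 2 + 2 * X + 2) * Q =
        (X - C (-1 + I)) * (C 3 * (X * Q + C (1 + I) * Q)) := by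
      rw [hA]
      simp only [map_sub, map_add, map_one, map_neg, map_ofNat]
      ring
    rw [e, hm, Tr_root, coeff_C_mul, coeff_add, coeff_X_mul, coeff_C_mul]
  generalize m + 1 = p at *
  have ho := p_odd p h3
  obtain ⟨w11, w12, w13, w14, w22, w23, w24, w33, w34, w44, wy⟩ :=
    vals p h3 (f I) (f χ) (f a) (f E) (by rw [← map_pow, hI]; simp)
      (by rw [← map_pow, hχ]; simp) (by rw [← map_pow, hj, map_mul]) hE hl1 hl2 hl3
      (fun x y => TT p (-(-1 + f I) * y) (-(-1 + f I) * x) (x * y)) (fun _ _ => rfl)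
      (f χ * f I) (f χ * f E) rfl rfl
  have tr : ∀ x y : R, f x = f y → (p : R) ^ 2 * x = (p : R) ^ 2 * y := by
    intro x y h
    have := hker (x - y) (by rw [map_sub, h, sub_self])
    linear_combination this
  set j := χ * I with hjd
  set e := χ * E with hed
  have hj2 : j ^ 2 = -1 := by rw [hjd]; linear_combination χ ^ 2 * hI - hχ
  have mj : f j = f χ * f I := map_mul _ _ _
  have me : f e = f χ * f E := map_mul _ _ _
  have k11 : (p : R) ^ 2 * (2 * LL p (-1 + I) (1 - I) (1 - I)) = 0 := by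
    apply hker
    simp only [map_mul, map_LL f p h3, map_add, map_sub, map_neg, map_one, map_ofNat]
    rw [w11, mul_zero]
  have k12 := tr (2 * LL p (-1 + I) (1 - I) (1 + I)) (2 * a ^ 2 - 2 * j * e + 2 * j * a ^ 2) (by
    simp only [map_mul, map_LL f p h3, map_add, map_sub, map_neg, map_one, map_ofNat, map_pow,
      mj, me]
    exact w12)
  have k13 := tr (2 * LL p (-1 + I) (1 - I) 1) (-e - j * e + 2 * j * a ^ 2) (by
    simp only [map_mul, map_LL f p h3, map_add, map_sub, map_neg, map_one, map_ofNat, map_pow,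
      mj, me]
    exact w13)
  have k14 := tr (2 * LL p (-1 + I) (1 - I) 2) (-2 * e - 2 * j * e) (by
    simp only [map_mul, map_LL f p h3, map_add, map_sub, map_neg, map_one, map_ofNat, map_pow,
      mj, me]
    exact w14)
  have k22 := tr (2 * LL p (-1 + I) (1 + I) (1 + I)) (-4 * a ^ 2 - 4 * j * e + 4 * j * a ^ 2) (by
    simp only [map_mul, map_LL f p h3, map_add, map_sub, map_neg, map_one, map_ofNat, map_pow,
      mj, me]
    exact w22)
  have k23 := tr (2 * LL p (-1 + I) (1 + I) 1) (-e - 2 * a ^ 2 - 3 * j * e) (by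
    simp only [map_mul, map_LL f p h3, map_add, map_sub, map_neg, map_one, map_ofNat, map_pow,
      mj, me]
    exact w23)
  have k24 := tr (2 * LL p (-1 + I) (1 + I) 2) (-4 * j * e - 8 * j * a ^ 2) (by
    simp only [map_mul, map_LL f p h3, map_add, map_sub, map_neg, map_one, map_ofNat, map_pow,
      mj, me]
    exact w24)
  have k33 := tr (2 * LL p (-1 + I) 1 1) (-2 * e - 2 * j * e) (by
    simp only [map_mul, map_LL f p h3, map_add, map_sub, map_neg, map_one, map_ofNat, map_pow,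
      mj, me]
    exact w33)
  have k34 := tr (2 * LL p (-1 + I) 1 2) (-2 * e - 6 * a ^ 2 - 2 * j * e + 6 * j * a ^ 2) (by
    simp only [map_mul, map_LL f p h3, map_add, map_sub, map_neg, map_one, map_ofNat, map_pow,
      mj, me]
    exact w34)
  have k44 := tr (2 * LL p (-1 + I) 2 2) (-4 * e + 8 * a ^ 2 - 4 * j * e) (by
    simp only [map_mul, map_LL f p h3, map_add, map_sub, map_neg, map_one, map_ofNat, map_pow,
      mj, me]
    exact w44)
  have ky := tr (LL p (-2 * I) 2 2) (-4 * e + 4 * a ^ 2 - 4 * j * a ^ 2) (by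
    simp only [map_mul, map_LL f p h3, map_add, map_sub, map_neg, map_one, map_ofNat, map_pow,
      mj, me]
    exact wy)
  have hZ : (-1 + I) ^ p = -((1 - j) * u) := by
    rw [← h2, ← ho.neg_pow]
    congr 1
    ring
  have E1 : (-1 + I + (1 - I)) ^ p - -((1 - j) * u) - (1 - j) * u = 0 := by
    rw [show -1 + I + (1 - I) = 0 by ring, zero_pow (by omega)]
    ring
  have E2 : (-1 + I + (1 + I)) ^ p - -((1 - j) * u) - (1 + j) * u = 2 * j * u * (u - 1) := by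
    rw [show -1 + I + (1 + I) = 2 * I by ring, mul_pow, h2p, hj]
    ring
  have E3 : (-1 + I + 1) ^ p - -((1 - j) * u) - 1 = (1 - j) * (u - 1) := by
    rw [show -1 + I + 1 = I by ring, hj]
    ring
  have E4 : (-1 + I + 2) ^ p - -((1 - j) * u) - 2 * u ^ 2 = -2 * u * (u - 1) := by
    rw [show -1 + I + 2 = 1 + I by ring, h1]
    ring
  have t1 := Tr4' hp.out hP _ _ _ _ _ _ _ _ _ _ _ _ _ _ h2 h2 h1 h1 hZ E1 E1 E2 E2
  have t2 := Tr4' hp.out hP _ _ _ _ _ _ _ _ _ _ _ _ _ _ h2 h1 (one_pow p) h2p hZ E1 E2 E3 E4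
  have t3 := Tr4' hp.out hP _ _ _ _ _ _ _ _ _ _ _ _ _ _ (one_pow p) (one_pow p) h2p h2p hZ
    E3 E3 E4 E4
  have t4 := Tr2 hp.out (-2 * I) (2 : R)
  have s1 := alg1 (p : R) j a e u hP hj2 hu _ _ _ k11 k12 k22
  have s2 := alg2 (p : R) j a e u hP hj2 hu _ _ _ _ _ _ k12 k13 k14 k23 k24 k34
  have s3 := alg3 (p : R) j a e u hP hj2 hu _ _ _ k33 k34 k44
  have s4 := alg4 (p : R) j a e u hP hj2 hu _ ky
  rw [← t1] at s1
  rw [← t2] at s2
  rw [← t3] at s3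
  have y1 : (-2 * I + 2) ^ p = 2 * u ^ 2 * ((1 - j) * u) := by
    rw [← h2, ← h2p, ← mul_pow]
    congr 1
    ring
  have y2 : (-2 * I) ^ p = -(2 * u ^ 2 * j) := by
    rw [← hj, ← h2p, ← mul_pow, ← ho.neg_pow]
    congr 1
    ring
  rw [y1, y2, h2p] at t4
  rw [← t4] at s4
  have s5 := alg5 (p : R) j a e u hP hu b v _ _ _ _ hv s1 s2 s3 s4
  rw [← s5]
  have y3 : (-1 + I) ^ 2 = -2 * I := by linear_combination hI
  have y4 : (X ^ 2 + 2 : R[X]) ^ (2 * p) = expand R 2 ((X + C 2) ^ (2 * p)) := by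
    rw [map_pow, map_add, expand_X, expand_C]
    rfl
  rw [← y3, ← Tr_expand, ← y4, ← Tr_C_mul, ← Tr_C_mul, ← Tr_C_mul, ← Tr_C_mul, ← Tr_sub, ← Tr_add,
    ← Tr_sub]
  have c2 : (2 : R[X]) ^ p = 2 * C u ^ 2 := by
    have := congrArg (C : R →+* R[X]) h2p
    simpa only [map_pow, map_mul, map_ofNat] using this
  have c3 : (3 : R[X]) ^ p = 3 * C v := by
    have := congrArg (C : R →+* R[X]) h3p
    simpa only [map_pow, map_mul, map_ofNat] using this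
  have e : C (54 * v ^ 2) * ((X + C (1 - I)) ^ p * (X + C (1 - I)) ^ p * (X + C (1 + I)) ^ p *
      (X + C (1 + I)) ^ p) - C (48 * u ^ 2 * v) * ((X + C (1 - I)) ^ p * (X + C (1 + I)) ^ p *
      (X + C 1) ^ p * (X + C 2) ^ p) + C (12 * u ^ 4) * ((X + C 1) ^ p * (X + C 1) ^ p *
      (X + C 2) ^ p * (X + C 2) ^ p) - C 3 * (X ^ 2 + 2) ^ (2 * p) =
      3 * (X ^ 2 + 2 * X + 2) * Q := by
    rw [hQ, hA, hD, mul_comm 2 p]
    simp only [pow_mul, mul_pow, c2, c3]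
    generalize (X + C (1 - I)) ^ p = x1
    generalize (X + C (1 + I)) ^ p = x2
    generalize (X + C (1 : R)) ^ p = x3
    generalize (X + C (2 : R)) ^ p = x4
    simp only [map_mul, map_pow, map_ofNat]
    ring
  rw [e, hL, mul_comm 2 p, pow_mul, hZ]
  linear_combination (3 * u ^ 2 * (Q.coeff (2 * m) + (1 + I) * Q.coeff (2 * m + 1))) * hj2

end Pool.Agent.P.MP_9db4f5_nt
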