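import Mathlib

namespace Pool.Agent.P.MP_9db4f5_nt

open Finset Polynomial

section defs
variable {R : Type*} [CommRing R]

def iv (p k : ℕ) : R := (k : R) ^ (p - 2)

def l1 (p : ℕ) (x w : R) : R := ∑ k ∈ range (p + 1), iv p k * x ^ k * w ^ (p - k)

def l2 (p : ℕ) (x w : R) : R := ∑ k ∈ range (p + 1), iv p k ^ 2 * x ^ k * w ^ (p - k)

def TT (p : ℕ) (x y w : R) : R :=
  ∑ l ∈ range (p + 1), ∑ k ∈ range (p - l), iv p k * iv p l * x ^ k * y ^ l * w ^ (p - l - k)

def dl (p : ℕ) (x y : R) : R :=
  ∑ k ∈ range (p + 1), ((p.choose k / p : ℕ) : R) * x ^ k * y ^ (p - k)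

variable {R' : Type*} [CommRing R'] (f : R →+* R') (p : ℕ)

lemma map_iv (k : ℕ) : f (iv p k) = iv p k := by simp [iv]
lemma map_l1 (x w : R) : f (l1 p x w) = l1 p (f x) (f w) := by simp [l1, map_iv]
lemma map_l2 (x w : R) : f (l2 p x w) = l2 p (f x) (f w) := by simp [l2, map_iv]
lemma map_TT (x y w : R) : f (TT p x y w) = TT p (f x) (f y) (f w) := by simp [TT, map_iv]
lemma map_dl (x w : R) : f (dl p x w) = dl p (f x) (f w) := by
  simp only [dl, map_sum, map_mul, map_natCast, map_pow]

lemma l2_smul (c x w : R) : l2 p (c * x) (c * w) = c ^ p * l2 p x w := by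
  rw [l2, l2, mul_sum]
  apply sum_congr rfl
  intro k hk
  have hk := mem_range.1 hk
  have : c ^ p = c ^ k * c ^ (p - k) := by
    rw [← pow_add]
    congr 1
    omega
  rw [this, mul_pow, mul_pow]
  ring

lemma dl_spec (hp : p.Prime) (x y : R) : (x + y) ^ p = x ^ p + y ^ p + p * dl p x y := by
  rw [add_pow_prime_eq' hp, dl]
  congr 2
  symm
  rw [← sum_subset (s₁ := Ioo 0 p)]
  · apply sum_congr rfl
    intro k _
    ring
  · intro k hk
    rw [mem_Ioo] at hk
    rw [mem_range]
    omega
  · intro k hk hk'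
    rw [mem_range] at hk
    rw [mem_Ioo] at hk'
    have h1 : 1 / p = 0 := Nat.div_eq_of_lt hp.one_lt
    have : k = 0 ∨ k = p := by omega
    rcases this with rfl | rfl
    · simp [h1]
    · simp [h1]

lemma dl_cocycle (hp : p.Prime) (ho : Odd p) (x y w : R) :
    dl p y (-w) + dl p x (-y) - dl p (w - x) (-w) + dl p (w - x) (y - w) = 0 := by
  have key : ∀ x y w : MvPolynomial (Fin 3) ℤ,
      dl p y (-w) + dl p x (-y) - dl p (w - x) (-w) + dl p (w - x) (y - w) = 0 := by
    intro x y w
    have hp0 : (p : MvPolynomial (Fin 3) ℤ) ≠ 0 := by exact_mod_cast hp.ne_zero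
    apply mul_left_cancel₀ hp0
    have h1 := dl_spec p hp y (-w)
    have h2 := dl_spec p hp x (-y)
    have h3 := dl_spec p hp (w - x) (-w)
    have h4 := dl_spec p hp (w - x) (y - w)
    rw [ho.neg_pow] at h1 h2 h3
    have e1 : y + -w = y - w := by ring
    have e2 : x + -y = -(y - x) := by ring
    have e3 : w - x + -w = -x := by ring
    have e4 : w - x + (y - w) = y - x := by ring
    rw [e1] at h1
    rw [e2, ho.neg_pow] at h2
    rw [e3, ho.neg_pow] at h3
    rw [e4] at h4
    linear_combination -h1 - h2 + h3 - h4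
  have := congrArg (MvPolynomial.eval₂Hom (Int.castRingHom R) ![x, y, w])
    (key (MvPolynomial.X 0) (MvPolynomial.X 1) (MvPolynomial.X 2))
  simp only [map_add, map_sub, map_dl, map_neg, map_zero, MvPolynomial.eval₂Hom_X'] at this
  exact this

end defs

section charp
variable {S : Type*} [CommRing S] (p : ℕ) [hp : Fact p.Prime] [CharP S p]

lemma mul_iv {k : ℕ} (h0 : 0 < k) (hk : k < p) : (k : S) * iv p k = 1 := by
  have h1 : (k : ZMod p) ≠ 0 := by
    rw [Ne, ZMod.natCast_eq_zero_iff]
    exact Nat.not_dvd_of_pos_of_lt h0 hk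
  have h2 := congrArg (ZMod.castHom (dvd_refl p) S) (ZMod.pow_card_sub_one_eq_one h1)
  rw [map_pow, map_natCast, map_one] at h2
  rw [iv, ← pow_succ', ← h2]
  congr 1
  have := hp.out.two_le
  omega

omit hp [CharP S p] in
lemma iv_zero (h3 : 3 < p) : (iv p 0 : S) = 0 := by
  rw [iv, Nat.cast_zero, zero_pow (by omega)]

omit hp in
lemma iv_self (h3 : 3 < p) : (iv p p : S) = 0 := by
  rw [iv, CharP.cast_eq_zero, zero_pow (by omega)]

lemma p_odd (h3 : 3 < p) : Odd p := hp.out.odd_of_ne_two (by omega)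

lemma iv_sub (h3 : 3 < p) {k : ℕ} (hk : k ≤ p) : (iv p (p - k) : S) = - iv p k := by
  have ho : Odd (p - 2) := by
    obtain ⟨t, ht⟩ := p_odd p h3
    exact ⟨t - 1, by omega⟩
  rw [iv, iv, Nat.cast_sub hk, CharP.cast_eq_zero, zero_sub, ho.neg_pow]

lemma mul_iv_sq (h3 : 3 < p) {k : ℕ} (hk : k ≤ p) : (k : S) * iv p k ^ 2 = iv p k := by
  rcases Nat.eq_zero_or_pos k with rfl | h0
  · simp [iv_zero p h3]
  rcases eq_or_lt_of_le hk with rfl | h1
  · simp [iv_self k h3]
  rw [sq, ← mul_assoc, mul_iv p h0 h1, one_mul]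

lemma choose_pred (j : ℕ) (hj : j < p) : (((p - 1).choose j : ℕ) : S) = (-1) ^ j := by
  induction j with
  | zero => simp
  | succ j ih =>
    have h1 := Nat.choose_succ_succ (p - 1) j
    rw [show (p - 1).succ = p by have := hp.out.pos; omega] at h1
    have h2 : ((p.choose j.succ : ℕ) : S) = 0 :=
      (CharP.cast_eq_zero_iff S p _).2 (hp.out.dvd_choose_self (by omega) hj)
    rw [h1, Nat.cast_add, ih (by omega)] at h2
    rw [pow_succ]
    linear_combination h2

lemma choose_div (h3 : 3 < p) {k : ℕ} (hk : k ≤ p) :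
    ((p.choose k / p : ℕ) : S) = -(-1) ^ k * iv p k := by
  have h1 : 1 / p = 0 := Nat.div_eq_of_lt hp.out.one_lt
  rcases Nat.eq_zero_or_pos k with rfl | h0
  · simp [iv_zero p h3, h1]
  rcases eq_or_lt_of_le hk with rfl | hlt
  · simp [iv_self k h3, h1]
  obtain ⟨j, rfl⟩ : ∃ j, k = j + 1 := ⟨k - 1, by omega⟩
  obtain ⟨c, hc⟩ := hp.out.dvd_choose_self (k := j + 1) (by omega) hlt
  have h2 := Nat.add_one_mul_choose_eq (p - 1) j
  rw [show p - 1 + 1 = p by omega, hc, mul_assoc] at h2
  have h4 : (p - 1).choose j = c * (j + 1) := Nat.eq_of_mul_eq_mul_left hp.out.pos h2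
  rw [hc, Nat.mul_div_cancel_left _ hp.out.pos]
  have h5 := choose_pred (S := S) p j (by omega)
  rw [h4, Nat.cast_mul] at h5
  have h6 := mul_iv (S := S) p h0 hlt
  rw [pow_succ]
  linear_combination iv p (j + 1) * h5 - (c : S) * h6

lemma l1_eq_dl (h3 : 3 < p) (x y : S) : l1 p x y = dl p x (-y) := by
  rw [l1, dl]
  apply sum_congr rfl
  intro k hk
  have hk := mem_range.1 hk
  rw [choose_div p h3 (by omega), neg_pow y]
  have : (-1 : S) ^ k * (-1) ^ (p - k) = -1 := by
    rw [← pow_add, show k + (p - k) = p by omega, (p_odd p h3).neg_one_pow]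
  linear_combination (iv p k * x ^ k * y ^ (p - k)) * this

lemma l1_cocycle (h3 : 3 < p) (x y w : S) :
    l1 p y w + l1 p x y - l1 p (w - x) w + l1 p (w - x) (w - y) = 0 := by
  simp only [l1_eq_dl p h3, neg_sub]
  exact dl_cocycle p hp.out (p_odd p h3) x y w

lemma l1_symm (h3 : 3 < p) (x w : S) : l1 p x w = - l1 p w x := by
  rw [l1, l1, ← sum_range_reflect, ← sum_neg_distrib]
  apply sum_congr rfl
  intro k hk
  have hk := mem_range.1 hk
  rw [show p + 1 - 1 - k = p - k by omega, iv_sub p h3 (by omega), show p - (p - k) = k by omega]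
  ring

lemma l2_symm (h3 : 3 < p) (x w : S) : l2 p x w = l2 p w x := by
  rw [l2, l2, ← sum_range_reflect]
  apply sum_congr rfl
  intro k hk
  have hk := mem_range.1 hk
  rw [show p + 1 - 1 - k = p - k by omega, iv_sub p h3 (by omega), show p - (p - k) = k by omega]
  ring

omit hp [CharP S p] in
lemma l2_zero (h3 : 3 < p) (w : S) : l2 p 0 w = 0 := by
  rw [l2]
  apply sum_eq_zero
  intro k _
  rcases Nat.eq_zero_or_pos k with rfl | h0
  · simp [iv_zero p h3]
  · rw [zero_pow (by omega)]
    simp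

lemma iv_sq (h3 : 3 < p) {k : ℕ} (hk : k ≤ p) : (iv p k : S) ^ 2 = (k : S) ^ (p - 3) := by
  have h1 : (iv p k : S) = k * (k : S) ^ (p - 3) := by
    rw [iv, ← pow_succ']
    congr 1
    omega
  rcases Nat.eq_zero_or_pos k with rfl | h0
  · rw [iv_zero p h3, Nat.cast_zero, zero_pow (by omega), zero_pow (by omega)]
  rcases eq_or_lt_of_le hk with rfl | hlt
  · rw [iv_self k h3, CharP.cast_eq_zero, zero_pow (by omega), zero_pow (by omega)]
  have h2 := mul_iv (S := S) p h0 hlt
  rw [sq]
  nth_rewrite 1 [h1]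
  linear_combination (k : S) ^ (p - 3) * h2

lemma sum_iv_sq (h3 : 3 < p) : ∑ k ∈ range (p + 1), (iv p k : S) ^ 2 = 0 := by
  rw [sum_range_succ, iv_self p h3]
  have h1 : ∑ x : ZMod p, x ^ (p - 3) = 0 :=
    FiniteField.sum_pow_lt_card_sub_one (ZMod p) (p - 3) (by rw [ZMod.card]; omega)
  have h2 : ∑ x : ZMod p, x ^ (p - 3) = ∑ k ∈ range p, (k : ZMod p) ^ (p - 3) := by
    symm
    apply sum_bij (fun (k : ℕ) _ => (k : ZMod p))
    · simp
    · intro a ha b hb hab
      rw [mem_range] at ha hb
      have := (ZMod.natCast_eq_natCast_iff' a b p).1 hab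
      rwa [Nat.mod_eq_of_lt ha, Nat.mod_eq_of_lt hb] at this
    · intro b _
      exact ⟨b.val, mem_range.2 (ZMod.val_lt b), ZMod.natCast_zmod_val b⟩
    · simp
  rw [h2] at h1
  have h4 := congrArg (ZMod.castHom (dvd_refl p) S) h1
  simp only [map_sum, map_pow, map_natCast, map_zero] at h4
  rw [sum_congr rfl (fun k hk => iv_sq p h3 (mem_range.1 hk).le), h4]
  simp

lemma l2_self (h3 : 3 < p) (c : S) : l2 p c c = 0 := by
  have h := l2_smul p c 1 1
  rw [mul_one] at h
  rw [h, l2]
  simp [sum_iv_sq p h3]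

lemma deriv_zero (F : S[X]) (hF : F.natDegree < p) (hd : derivative F = 0) :
    F = C (F.coeff 0) := by
  ext n
  rcases n with _ | n
  · simp
  rw [coeff_C, if_neg (by omega)]
  rcases lt_or_ge (n + 1) p with h | h
  · have h1 := congrArg (fun G => G.coeff n) hd
    simp only [coeff_derivative, coeff_zero] at h1
    have h2 := mul_iv (S := S) p (k := n + 1) (by omega) h
    push_cast at h2
    linear_combination iv p (n + 1) * h1 - F.coeff (n + 1) * h2
  · exact coeff_eq_zero_of_natDegree_lt (by omega)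

omit hp [CharP S p] in
lemma deriv_iv (k : ℕ) : derivative (iv p k : S[X]) = 0 := by
  simp [iv, derivative_pow]

lemma deriv_l2 (h3 : 3 < p) (u : S[X]) (w : S) :
    u * derivative (l2 p u (C w)) = derivative u * l1 p u (C w) := by
  rw [l2, l1, derivative_sum, mul_sum, mul_sum]
  apply sum_congr rfl
  intro k hk
  have hk := mem_range.1 hk
  have h1 := mul_iv_sq (S := S[X]) p h3 (k := k) (by omega)
  simp only [derivative_mul, derivative_pow, deriv_iv, derivative_C, mul_zero, zero_mul,
    zero_add, add_zero, map_natCast]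
  rcases k with _ | k
  · simp [iv_zero p h3]
  · rw [Nat.add_sub_cancel, pow_succ u k]
    linear_combination (u * u ^ k * derivative u * C w ^ (p - (k + 1))) * h1

omit hp [CharP S p] in
lemma geom_aux (x w : S) (n : ℕ) :
    (w - x) * ∑ k ∈ range n, x ^ (k + 1) * w ^ (n - k) = x * w ^ (n + 1) - x ^ (n + 1) * w := by
  induction n with
  | zero => simp
  | succ n ih =>
    have e : ∑ k ∈ range n, x ^ (k + 1) * w ^ (n + 1 - k) =
        w * ∑ k ∈ range n, x ^ (k + 1) * w ^ (n - k) := by
      rw [mul_sum]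
      apply sum_congr rfl
      intro k hk
      have hk := mem_range.1 hk
      rw [show n + 1 - k = (n - k) + 1 by omega]
      ring
    rw [sum_range_succ, e, show n + 1 - n = 1 by omega]
    linear_combination w * ih

lemma deriv_TT (h3 : 3 < p) (y w : S) :
    (C w - X) * (X * derivative (TT p X (C y) (C w))) =
      X * l1 p (C y) (C w) - C w * l1 p (C y) X := by
  rw [TT, l1, l1, derivative_sum, mul_sum, mul_sum, mul_sum, mul_sum, ← sum_sub_distrib]
  apply sum_congr rfl
  intro l hl
  have hl := mem_range.1 hl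
  rcases eq_or_lt_of_le (Nat.lt_succ_iff.1 hl) with rfl | hlt
  · simp [iv_self l h3]
  obtain ⟨n, hn⟩ : ∃ n, p - l = n + 1 := ⟨p - l - 1, by omega⟩
  rw [hn, sum_range_succ', iv_zero p h3]
  simp only [zero_mul, add_zero]
  have e : X * derivative (∑ k ∈ range n,
      iv p (k + 1) * iv p l * X ^ (k + 1) * C y ^ l * C w ^ (n + 1 - (k + 1))) =
      iv p l * C y ^ l * ∑ k ∈ range n, X ^ (k + 1) * C w ^ (n - k) := by
    rw [derivative_sum, mul_sum, mul_sum]
    apply sum_congr rfl
    intro k hk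
    have hk := mem_range.1 hk
    have h1 := mul_iv (S := S[X]) p (k := k + 1) (by omega) (by omega)
    simp only [derivative_mul, derivative_pow, deriv_iv, derivative_C, derivative_X, mul_zero,
      zero_mul, zero_add, add_zero, map_natCast, Nat.add_sub_cancel, mul_one,
      Nat.add_sub_add_right]
    linear_combination (iv p l * C y ^ l * X ^ (k + 1) * C w ^ (n - k)) * h1
  rw [e]
  have h2 := geom_aux (X : S[X]) (C w) n
  linear_combination (iv p l * C y ^ l) * h2

omit hp [CharP S p] in
lemma natDegree_iv (k : ℕ) : (iv p k : S[X]).natDegree = 0 := by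
  rw [← map_iv (C : S →+* S[X]), natDegree_C]

omit hp in
lemma natDegree_l2 (h3 : 3 < p) (u : S[X]) (hu : u.natDegree ≤ 1) (w : S) :
    (l2 p u (C w)).natDegree ≤ p - 1 := by
  rw [l2, sum_range_succ, iv_self p h3]
  simp only [ne_eq, OfNat.ofNat_ne_zero, not_false_eq_true, zero_pow, zero_mul, add_zero]
  apply natDegree_sum_le_of_forall_le
  intro k hk
  have hk := mem_range.1 hk
  rw [← map_iv (C : S →+* S[X]), ← C_pow, ← C_pow]
  refine (natDegree_mul_C_le _ _).trans ((natDegree_C_mul_le _ _).trans ?_)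
  refine (natDegree_pow_le_of_le k hu).trans (by omega)

omit hp [CharP S p] in
lemma natDegree_TT (y w : S) : (TT p X (C y) (C w)).natDegree ≤ p - 1 := by
  rw [TT]
  apply natDegree_sum_le_of_forall_le
  intro l _
  apply natDegree_sum_le_of_forall_le
  intro k hk
  have hk := mem_range.1 hk
  rw [← map_iv (C : S →+* S[X]), ← map_iv (C : S →+* S[X]) p l, ← C_pow, ← C_pow, ← C_mul]
  refine (natDegree_mul_C_le _ _).trans ((natDegree_mul_C_le _ _).trans
    ((natDegree_C_mul_le _ _).trans ?_))
  refine (natDegree_X_pow_le k).trans (by omega)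

omit hp [CharP S p] in
lemma TT_zero (h3 : 3 < p) (y w : S) : TT p 0 y w = 0 := by
  rw [TT]
  apply sum_eq_zero
  intro l _
  apply sum_eq_zero
  intro k _
  rcases Nat.eq_zero_or_pos k with rfl | h0
  · simp [iv_zero p h3]
  · rw [zero_pow (by omega)]
    simp

theorem TT_eq (h3 : 3 < p) (x y w : S) :
    TT p x y w = -l2 p (w - x) w - l2 p (w - y) w + l2 p x y + l2 p (w - x) (w - y) := by
  set F : S[X] := TT p X (C y) (C w) + l2 p (C w - X) (C w) + C (l2 p (w - y) w) - l2 p X (C y)
    - l2 p (C w - X) (C (w - y)) with hF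
  have hu : (C w - X : S[X]).natDegree ≤ 1 := by compute_degree
  have hdeg : F.natDegree < p := by
    have d1 := natDegree_TT p y w
    have d2 := natDegree_l2 p h3 _ hu w
    have d3 := natDegree_l2 p h3 _ (natDegree_X_le (R := S)) y
    have d4 := natDegree_l2 p h3 _ hu (w - y)
    have d5 : (C (l2 p (w - y) w)).natDegree ≤ p - 1 := by rw [natDegree_C]; omega
    have := natDegree_sub_le_of_le (natDegree_sub_le_of_le
      (natDegree_add_le_of_le (natDegree_add_le_of_le d1 d2) d5) d3) d4
    simp only [max_self] at this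
    rw [← hF] at this
    omega
  have hd : derivative F = 0 := by
    have a1 := deriv_TT p h3 y w
    have a2 := deriv_l2 p h3 (C w - X) w
    have a3 := deriv_l2 p h3 X y
    have a4 := deriv_l2 p h3 (C w - X) (w - y)
    have a5 := l1_cocycle p h3 (X : S[X]) (C y) (C w)
    have a6 := l1_symm p h3 (C y : S[X]) X
    rw [← C_sub] at a5
    simp only [derivative_sub, derivative_C, derivative_X, zero_sub] at a2 a3 a4
    have h : (X - C w) * (X * derivative F) = 0 := by
      rw [hF]
      simp only [derivative_sub, derivative_add, derivative_C, add_zero]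
      linear_combination -a1 - X * a2 + (C w - X) * a3 + X * a4 - X * a5 + C w * a6
    have h' := (monic_X_sub_C w).mul_right_eq_zero_iff.1 h
    exact monic_X.mul_right_eq_zero_iff.1 h'
  have h1 := deriv_zero p F hdeg hd
  have ev : ∀ t : S, eval t F = TT p t y w + l2 p (w - t) w + l2 p (w - y) w - l2 p t y
      - l2 p (w - t) (w - y) := by
    intro t
    rw [← coe_evalRingHom, hF]
    simp only [map_sub, map_add, map_TT, map_l2, coe_evalRingHom, eval_X, eval_C]
  have h2 : eval x F = eval 0 F := by rw [h1]; simp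
  rw [ev, ev, TT_zero p h3, l2_zero p h3, sub_zero w, l2_self p h3, l2_symm p h3 w (w - y)] at h2
  linear_combination h2

omit hp [CharP S p] in
lemma sq_split (f : ℕ → S) : (∑ k ∈ range (p + 1), f k) ^ 2 =
    ∑ l ∈ range (p + 1), ∑ k ∈ range (p - l), f k * f l + ∑ l ∈ range (p + 1), f (p - l) * f l +
      ∑ l ∈ range (p + 1), ∑ k ∈ range (p - l), f (p - k) * f (p - l) := by
  rw [← sum_range_reflect (fun l => ∑ k ∈ range (p - l), f (p - k) * f (p - l)), sq, mul_sum,
    ← sum_add_distrib, ← sum_add_distrib]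
  apply sum_congr rfl
  intro l hl
  have hl := mem_range.1 hl
  rw [show p + 1 - 1 - l = p - l by omega, show p - (p - l) = l by omega, ← sum_mul, ← sum_mul,
    ← add_mul, ← add_mul]
  congr 1
  rw [show p + 1 = (p - l + 1) + l by omega, sum_range_add, sum_range_succ,
    ← sum_range_reflect (fun k => f (p - k))]
  congr 1
  apply sum_congr rfl
  intro k hk
  have hk := mem_range.1 hk
  congr 1
  omega

theorem l1_sq (h3 : 3 < p) (x w : S) :
    l1 p x w ^ 2 = -2 * w ^ p * l2 p (w - x) w - 2 * x ^ p * l2 p (x - w) x := by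
  rw [l1, sq_split]
  have e1 : ∑ l ∈ range (p + 1), ∑ k ∈ range (p - l),
      (iv p k * x ^ k * w ^ (p - k)) * (iv p l * x ^ l * w ^ (p - l)) = w ^ p * TT p x x w := by
    rw [TT, mul_sum]
    apply sum_congr rfl
    intro l hl
    have hl := mem_range.1 hl
    rw [mul_sum]
    apply sum_congr rfl
    intro k hk
    have hk := mem_range.1 hk
    have : w ^ (p - k) * w ^ (p - l) = w ^ p * w ^ (p - l - k) := by
      rw [← pow_add, ← pow_add]
      congr 1
      omega
    linear_combination (iv p k * x ^ k * iv p l * x ^ l) * this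
  have e2 : ∑ l ∈ range (p + 1), (iv p (p - l) * x ^ (p - l) * w ^ (p - (p - l))) *
      (iv p l * x ^ l * w ^ (p - l)) = 0 := by
    have h := sum_iv_sq (S := S) p h3
    rw [← mul_zero (-(x ^ p * w ^ p)), ← h, mul_sum]
    apply sum_congr rfl
    intro l hl
    have hl := mem_range.1 hl
    have hx : x ^ p = x ^ (p - l) * x ^ l := by rw [← pow_add]; congr 1; omega
    have hw : w ^ p = w ^ (p - l) * w ^ l := by rw [← pow_add]; congr 1; omega
    rw [iv_sub p h3 (by omega), show p - (p - l) = l by omega, hx, hw]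
    ring
  have e3 : ∑ l ∈ range (p + 1), ∑ k ∈ range (p - l),
      (iv p (p - k) * x ^ (p - k) * w ^ (p - (p - k))) *
        (iv p (p - l) * x ^ (p - l) * w ^ (p - (p - l))) = x ^ p * TT p w w x := by
    rw [TT, mul_sum]
    apply sum_congr rfl
    intro l hl
    have hl := mem_range.1 hl
    rw [mul_sum]
    apply sum_congr rfl
    intro k hk
    have hk := mem_range.1 hk
    have : x ^ (p - k) * x ^ (p - l) = x ^ p * x ^ (p - l - k) := by
      rw [← pow_add, ← pow_add]
      congr 1
      omega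
    rw [iv_sub p h3 (by omega), iv_sub p h3 (by omega), show p - (p - l) = l by omega,
      show p - (p - k) = k by omega]
    linear_combination (iv p k * w ^ k * iv p l * w ^ l) * this
  rw [e1, e2, e3, TT_eq p h3, TT_eq p h3]
  simp only [l2_self p h3]
  ring

end charp

end Pool.Agent.P.MP_9db4f5_nt
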