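import Mathlib

namespace Pool.Agent.P.MP_9db4f5_nt

open Finset PowerSeries

noncomputable def ex (c : ℚ) : ℚ⟦X⟧ := rescale c (exp ℚ)

lemma ex_mul (a b : ℚ) : ex a * ex b = ex (a + b) := exp_mul_exp_eq_exp_add a b

lemma ex_zero : ex 0 = 1 := by
  simp [ex, rescale_zero]

lemma ex_one : ex 1 = exp ℚ := by
  simp [ex, rescale_one]

lemma coeff_ex (c : ℚ) (n : ℕ) : coeff n (ex c) = c ^ n / n.factorial := by
  rw [ex, coeff_rescale, coeff_exp]
  simp [div_eq_mul_inv]

lemma coeff_mul_ex (F : ℚ⟦X⟧) (c : ℚ) (n : ℕ) : n.factorial * coeff n (F * ex c) =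
    ∑ k ∈ range (n + 1), (n.choose k : ℚ) * (k.factorial * coeff k F) * c ^ (n - k) := by
  rw [coeff_mul, Nat.sum_antidiagonal_eq_sum_range_succ_mk, mul_sum]
  apply sum_congr rfl
  intro k hk
  have hk := mem_range.1 hk
  have h := Nat.choose_mul_factorial_mul_factorial (n := n) (k := k) (by omega)
  rw [coeff_ex, ← h]
  have : ((n - k).factorial : ℚ) ≠ 0 := by positivity
  push_cast
  field_simp

section
variable (F : ℚ⟦X⟧) (hF : F * (ex 1 + ex (-1)) = 2)
include hF

lemma euler_int (n : ℕ) : ∃ e : ℤ, n.factorial * coeff n F = e := by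
  induction n using Nat.strong_induction_on with
  | _ n ih =>
    have h := congrArg (fun G => (n.factorial : ℚ) * coeff n G) hF
    simp only [mul_add, map_add, coeff_mul_ex, sum_range_succ, Nat.choose_self, Nat.sub_self,
      pow_zero] at h
    choose! e he using ih
    have h2 : ∃ d : ℤ, (n.factorial : ℚ) * coeff n (2 : ℚ⟦X⟧) = 2 * d := by
      have : (2 : ℚ⟦X⟧) = C 2 := rfl
      rw [this, coeff_C]
      split_ifs with h0
      · subst h0
        exact ⟨1, by simp⟩
      · exact ⟨0, by simp⟩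
    obtain ⟨d, hd⟩ := h2
    rw [hd] at h
    refine ⟨d - ∑ k ∈ range n, (n.choose k : ℤ) * e k * (if Even (n - k) then 1 else 0), ?_⟩
    have h3 : ∑ k ∈ range n, (n.choose k : ℚ) * (k.factorial * coeff k F) * 1 ^ (n - k) +
        ∑ k ∈ range n, (n.choose k : ℚ) * (k.factorial * coeff k F) * (-1) ^ (n - k) =
        2 * ∑ k ∈ range n, (n.choose k : ℚ) * e k * (if Even (n - k) then 1 else 0) := by
      rw [← sum_add_distrib, mul_sum]
      apply sum_congr rfl
      intro k hk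
      rw [he k (mem_range.1 hk)]
      split_ifs with h0
      · rw [h0.neg_one_pow]; ring
      · rw [(Nat.not_even_iff_odd.1 h0).neg_one_pow]; ring
    push_cast at h ⊢
    linarith

lemma euler_alt (N : ℕ) : 2 * ∑ j ∈ range N, C ((-1) ^ j) * ex (2 * j + 1) =
    F - C ((-1) ^ N) * (F * ex (2 * N)) := by
  induction N with
  | zero => simp [ex_zero]
  | succ N ih =>
    rw [sum_range_succ, mul_add, ih]
    have h1 := ex_mul (2 * N + 1) 1
    have h2 := ex_mul (2 * N + 1) (-1)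
    rw [show (2 * (N : ℚ) + 1 + -1) = 2 * N by ring] at h2
    rw [show (2 * (N : ℚ) + 1 + 1) = 2 * ((N + 1 : ℕ) : ℚ) by push_cast; ring] at h1
    rw [← h1, ← h2, pow_succ, map_mul, map_neg, map_one]
    linear_combination (-C ((-1 : ℚ) ^ N) * ex (2 * N + 1)) * hF

theorem euler_mod (p n : ℕ) (hp : Odd p) : ∃ e : ℤ, n.factorial * coeff n F = e ∧
    (p : ℤ) ∣ ∑ j ∈ range p, (-1) ^ j * (2 * (j : ℤ) + 1) ^ n - e := by
  choose e he using euler_int F hF
  refine ⟨e n, he n, ∑ k ∈ range n, (n.choose k : ℤ) * e k * (2 * p) ^ (n - k - 1), ?_⟩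
  have h := congrArg (fun G => (n.factorial : ℚ) * coeff n G) (euler_alt F hF p)
  have h2 : (2 : ℚ⟦X⟧) = C 2 := rfl
  rw [hp.neg_one_pow, map_neg, map_one, neg_one_mul, sub_neg_eq_add, h2] at h
  simp only [map_add, mul_add, coeff_mul_ex, coeff_C_mul, map_sum, coeff_ex, he, sum_range_succ,
    Nat.choose_self, Nat.sub_self, pow_zero] at h
  have h3 : (n.factorial : ℚ) * (2 * ∑ j ∈ range p, (-1) ^ j * ((2 * (j : ℚ) + 1) ^ n / n.factorial))
      = 2 * ∑ j ∈ range p, (-1) ^ j * (2 * (j : ℚ) + 1) ^ n := by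
    rw [mul_sum, mul_sum, mul_sum]
    apply sum_congr rfl
    intro j _
    have : (n.factorial : ℚ) ≠ 0 := by positivity
    field_simp
  have h4 : ∑ k ∈ range n, (n.choose k : ℚ) * e k * (2 * p) ^ (n - k) =
      2 * (p * ∑ k ∈ range n, (n.choose k : ℚ) * e k * (2 * p) ^ (n - k - 1)) := by
    rw [mul_sum, mul_sum]
    apply sum_congr rfl
    intro k hk
    have hk := mem_range.1 hk
    rw [show n - k = (n - k - 1) + 1 by omega, pow_succ, Nat.add_sub_cancel]
    ring
  rw [h3, h4] at h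
  have : ((∑ j ∈ range p, (-1) ^ j * (2 * (j : ℤ) + 1) ^ n - e n : ℤ) : ℚ) =
      ((p * ∑ k ∈ range n, (n.choose k : ℤ) * e k * (2 * p) ^ (n - k - 1) : ℤ) : ℚ) := by
    push_cast at h ⊢
    linarith
  exact_mod_cast this

end

lemma euler_gf : (2 * (exp ℚ + rescale (-1) (exp ℚ))⁻¹) * (ex 1 + ex (-1)) = 2 := by
  rw [ex_one, ex, mul_assoc, PowerSeries.inv_mul_cancel, mul_one]
  rw [map_add, ← ex, ← coeff_zero_eq_constantCoeff_apply (ex (-1)), coeff_ex]
  simp

end Pool.Agent.P.MP_9db4f5_nt
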