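import Pool.Agent.P.MP_9db4f5_nt.Core
import Pool.Agent.P.MP_9db4f5_nt.Euler
import Pool.Agent.P.MP_9db4f5_nt.Bridge

namespace Pool.Agent.P.MP_9db4f5_nt

open Finset

lemma exists_u {p : ℕ} (ho : Odd p) : ∃ u : ℤ, 2 ^ p = 2 * u ^ 2 ∧
    ∀ {R : Type} [CommRing R] (I : R), I ^ 2 = -1 →
      I ^ p = (((-1) ^ ((p - 1) / 2) : ℤ) : R) * I ∧
      (1 + I) ^ p = (1 + (((-1) ^ ((p - 1) / 2) : ℤ) : R) * I) * u := by
  obtain ⟨t, ht⟩ : ∃ t, p = 4 * t + 1 ∨ p = 4 * t + 3 := ⟨p / 4, by obtain ⟨k, hk⟩ := ho; omega⟩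
  have h16 : (2 : ℤ) ^ (4 * t) = ((-4) ^ t) ^ 2 := by
    rw [pow_mul, ← pow_mul (-4 : ℤ), mul_comm t 2, pow_mul]
    norm_num
  rcases ht with rfl | rfl
  · refine ⟨(-4) ^ t, by rw [pow_succ, h16]; ring, ?_⟩
    intro R _ I hI
    have h4 : I ^ 4 = 1 := by linear_combination (I ^ 2 - 1) * hI
    have h5 : (1 + I) ^ 4 = -4 := by linear_combination (I ^ 2 + 4 * I + 5) * hI
    rw [show (4 * t + 1 - 1) / 2 = 2 * t by omega, pow_succ, pow_succ, pow_mul, pow_mul, pow_mul,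
      h4, h5]
    push_cast
    simp only [one_pow, one_mul]
    exact ⟨trivial, mul_comm _ _⟩
  · refine ⟨-2 * (-4) ^ t, by rw [pow_add, h16]; ring, ?_⟩
    intro R _ I hI
    have h4 : I ^ 4 = 1 := by linear_combination (I ^ 2 - 1) * hI
    have h5 : (1 + I) ^ 4 = -4 := by linear_combination (I ^ 2 + 4 * I + 5) * hI
    rw [show (4 * t + 3 - 1) / 2 = 2 * t + 1 by omega, pow_add, pow_add, pow_add, pow_mul, pow_mul,
      pow_mul, h4, h5]
    push_cast
    simp only [one_pow]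
    constructor
    · linear_combination I * hI
    · linear_combination (-4) ^ t * (I + 3) * hI

lemma wolstenholme {p : ℕ} (hp : p.Prime) (h3 : 3 < p) :
    ∃ w : ℤ, (p.centralBinom : ℤ) = 2 + (p : ℤ) ^ 3 * w := by
  have := Fact.mk hp
  have h1 : ((∑ k ∈ range (p + 1), (p.choose k / p) ^ 2 : ℕ) : ZMod p) = 0 := by
    rw [← sum_iv_sq (S := ZMod p) p h3]
    push_cast
    apply sum_congr rfl
    intro k hk
    rw [choose_div p h3 (Nat.lt_succ_iff.1 (mem_range.1 hk)), mul_pow, neg_sq, ← pow_mul,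
      mul_comm k 2, pow_mul]
    simp
  obtain ⟨w, hw⟩ := (ZMod.natCast_eq_zero_iff _ _).1 h1
  refine ⟨w, ?_⟩
  have h2 : p.centralBinom = 2 + p ^ 2 * ∑ k ∈ range (p + 1), (p.choose k / p) ^ 2 := by
    obtain ⟨m, rfl⟩ : ∃ m, p = m + 1 := ⟨p - 1, by omega⟩
    have h0 : 1 / (m + 1) = 0 := Nat.div_eq_of_lt hp.one_lt
    rw [Nat.centralBinom, ← Nat.sum_range_choose_sq, sum_range_succ, sum_range_succ',
      sum_range_succ, sum_range_succ', Nat.choose_self, Nat.choose_zero_right, h0]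
    have : ∑ k ∈ range m, (m + 1).choose (k + 1) ^ 2 =
        (m + 1) ^ 2 * ∑ k ∈ range m, ((m + 1).choose (k + 1) / (m + 1)) ^ 2 := by
      rw [mul_sum]
      apply sum_congr rfl
      intro k hk
      have hk := mem_range.1 hk
      rw [← mul_pow, Nat.mul_div_cancel' (hp.dvd_choose_self (by omega) (by omega))]
    rw [this]
    ring
  rw [h2, hw]
  push_cast
  ring

theorem int_cong {m : ℕ} (hp : (m + 1).Prime) (h3 : 3 < m + 1) (E : ℤ)
    (hE : ((m + 1 : ℕ) : ℤ) ∣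
      ∑ j ∈ range (m + 1), (-1) ^ j * (2 * (j : ℤ) + 1) ^ (m + 1 - 3) - E) :
    ∃ u v a b t : ℤ, 2 ^ m = u ^ 2 ∧ 3 ^ m = v ∧ u = 1 + (m + 1 : ℕ) * a ∧
      v = 1 + (m + 1 : ℕ) * b ∧
      36 * u ^ 4 * (ZZ m - (-1) ^ (m / 2) * u ^ 6 * v ^ 4) + 60 * (m + 1 : ℕ) ^ 2 * E =
        (m + 1 : ℕ) ^ 3 * t := by
  have := Fact.mk hp
  have ho := p_odd (m + 1) h3
  obtain ⟨u, hu2, hu⟩ := exists_u ho
  rw [Nat.add_sub_cancel] at hu
  set χ : ℤ := (-1) ^ (m / 2) with hχd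
  have hχ : χ ^ 2 = 1 := by rw [hχd, ← pow_mul, mul_comm, pow_mul]; simp
  obtain ⟨Q, hQ, hc⟩ := exists_Q hp
  obtain ⟨b, hb⟩ : ∃ b : ℤ, 3 ^ m = 1 + (m + 1 : ℕ) * b := by
    have hc : IsCoprime (3 : ℤ) (m + 1 : ℕ) := by
      have : Nat.Coprime 3 (m + 1) := (Nat.coprime_primes Nat.prime_three hp).2 (by omega)
      exact_mod_cast Nat.isCoprime_iff_coprime.2 this
    have h := Int.ModEq.pow_card_sub_one_eq_one hp hc
    rw [Nat.add_sub_cancel] at h
    obtain ⟨b, hb⟩ := h.symm.dvd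
    exact ⟨b, by linarith⟩
  set p := m + 1 with hpd
  let I : GaussianInt := ⟨0, 1⟩
  have hI : I ^ 2 = -1 := by decide
  obtain ⟨hj, h1⟩ := hu I hI
  obtain ⟨-, h2⟩ := hu (-I) (by rw [neg_sq, hI])
  rw [← sub_eq_add_neg, mul_neg, ← sub_eq_add_neg] at h2
  have hp0 : (p : GaussianInt) ≠ 0 := by exact_mod_cast hp.ne_zero
  obtain ⟨a, ha⟩ : ∃ a : ℤ, u = 1 + p * a := by
    have h := dl_spec p hp 1 I
    rw [h1, hj, one_pow] at h
    refine ⟨(dl p 1 I).re, ?_⟩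
    have h' := congrArg Zsqrtd.re h
    simp [I] at h'
    exact h'
  have ha' : (u : GaussianInt) = 1 + p * a := by exact_mod_cast congrArg (Int.cast : ℤ → GaussianInt) ha
  have hu2' : (2 : GaussianInt) ^ p = 2 * u ^ 2 := by
    exact_mod_cast congrArg (Int.cast : ℤ → GaussianInt) hu2
  have d1 : dl p (1 + I) (-1) = -(1 + χ * I) * a := by
    apply mul_left_cancel₀ hp0
    have h := dl_spec p hp (1 + I) (-1)
    rw [h1, ho.neg_one_pow, show 1 + I + -1 = I by ring, hj, ha'] at h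
    linear_combination -h
  have d2 : dl p (1 - I) (-1) = -(1 - χ * I) * a := by
    apply mul_left_cancel₀ hp0
    have h := dl_spec p hp (1 - I) (-1)
    rw [h2, ho.neg_one_pow, show 1 - I + -1 = -I by ring, ho.neg_pow, hj, ha'] at h
    linear_combination -h
  have d3 : dl p (-1 : GaussianInt) (-1) = -4 * a - 2 * p * a ^ 2 := by
    apply mul_left_cancel₀ hp0
    have h := dl_spec p hp (-1 : GaussianInt) (-1)
    rw [ho.neg_one_pow, show (-1 + -1 : GaussianInt) = -2 by ring, ho.neg_pow, hu2', ha'] at h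
    linear_combination -h
  let J1 : Ideal GaussianInt := Ideal.span {(p : GaussianInt)}
  let J3 : Ideal GaussianInt := Ideal.span {(p : GaussianInt) ^ 3}
  have hle : J3 ≤ J1 := Ideal.span_singleton_le_span_singleton.2 (dvd_pow_self _ (by norm_num))
  let π1 := Ideal.Quotient.mk J1
  let π3 := Ideal.Quotient.mk J3
  let f : GaussianInt ⧸ J3 →+* GaussianInt ⧸ J1 := Ideal.Quotient.factor hle
  have hf : ∀ x, f (π3 x) = π1 x := fun x => Ideal.Quotient.factor_mk hle x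
  have hS : ((p : ℕ) : GaussianInt ⧸ J1) = 0 := by
    rw [← map_natCast π1, Ideal.Quotient.eq_zero_iff_mem]
    exact Ideal.mem_span_singleton_self _
  have hP : ((p : ℕ) : GaussianInt ⧸ J3) ^ 3 = 0 := by
    rw [← map_natCast π3, ← map_pow, Ideal.Quotient.eq_zero_iff_mem]
    exact Ideal.mem_span_singleton_self _
  have : Nontrivial (GaussianInt ⧸ J1) := by
    rw [Ideal.Quotient.nontrivial_iff, Ne, Ideal.span_singleton_eq_top]
    intro h
    obtain ⟨y, hy⟩ := h.exists_right_inv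
    have h' := congrArg Zsqrtd.re hy
    simp only [Zsqrtd.re_mul, Zsqrtd.re_natCast, Zsqrtd.im_natCast, mul_zero, zero_mul, add_zero,
      Zsqrtd.re_one] at h'
    have : (p : ℤ) ∣ 1 := ⟨_, h'.symm⟩
    have := Int.le_of_dvd one_pos this
    omega
  have : CharP (GaussianInt ⧸ J1) p := (CharP.charP_iff_prime_eq_zero hp).2 hS
  have hker : ∀ x, f x = 0 → ((p : ℕ) : GaussianInt ⧸ J3) ^ 2 * x = 0 := by
    intro x hx
    obtain ⟨y, rfl⟩ := Ideal.Quotient.mk_surjective x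
    rw [hf, Ideal.Quotient.eq_zero_iff_mem, Ideal.mem_span_singleton] at hx
    obtain ⟨w, rfl⟩ := hx
    rw [map_mul, map_natCast]
    linear_combination (π3 w) * hP
  have key := core f m h3 hP hker (π3 I) χ u a (3 ^ m : ℤ) b E
    (by rw [← map_pow, hI]; simp) (by exact_mod_cast congrArg (Int.cast : ℤ → _) hχ)
    (by simpa using congrArg π3 hj) (by simpa using congrArg π3 h1)
    (by simpa using congrArg π3 h2) (by exact_mod_cast congrArg (Int.cast : ℤ → _) hu2)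
    (by push_cast; ring) (by exact_mod_cast congrArg (Int.cast : ℤ → _) ha)
    (by exact_mod_cast congrArg (Int.cast : ℤ → _) hb)
    (by
      obtain ⟨w, hw⟩ := hE
      have := congrArg (Int.cast : ℤ → GaussianInt ⧸ J1) hw
      push_cast at this
      rw [hS] at this
      rw [map_intCast]
      linear_combination this)
    (by
      rw [l1_eq_dl p h3, hf]
      simpa [map_dl] using congrArg π1 d1)
    (by
      rw [l1_eq_dl p h3, hf]
      simpa [map_dl] using congrArg π1 d2)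
    (by
      rw [l1_eq_dl p h3]
      have := congrArg π1 d3
      simp only [map_dl, map_neg, map_one, map_sub, map_mul, map_natCast, hS, map_intCast,
        map_ofNat, mul_zero, zero_mul, sub_zero] at this
      rw [this, map_intCast])
    (Q.map (Int.castRingHom _))
    (by
      have := congrArg (Polynomial.map (Int.castRingHom (GaussianInt ⧸ J3))) hQ
      simpa only [Polynomial.map_mul, Polynomial.map_add, Polynomial.map_sub, Polynomial.map_pow,
        Polynomial.map_X, Polynomial.map_ofNat] using this)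
  simp only [Polynomial.coeff_map, eq_intCast] at key
  set c := Q.coeff (2 * m + 1)
  set c' := Q.coeff (2 * m)
  set v : ℤ := 3 ^ m
  have key2 : (p : GaussianInt) ^ 3 ∣
      ((-6 * χ * u ^ 2 * c + 36 * u ^ 10 * v ^ 4 - 60 * p ^ 2 * (χ * E) : ℤ) : GaussianInt) +
      I * ((6 * χ * u ^ 2 * (c' + c) - χ * (96 + 384 * p * b + 24 * p * a + 432 * p ^ 2 * b ^ 2 +
        480 * p ^ 2 * a * b + -132 * p ^ 2 * a ^ 2) : ℤ) : GaussianInt) := by
    rw [← Ideal.mem_span_singleton, ← Ideal.Quotient.eq_zero_iff_mem, map_add, map_mul,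
      map_intCast, map_intCast]
    have hI3 : π3 I ^ 2 = -1 := by rw [← map_pow, hI]; simp
    push_cast
    linear_combination key - 6 * χ * u ^ 2 * c * hI3
  obtain ⟨y, hy⟩ := key2
  have h' := congrArg Zsqrtd.re hy
  have hc3 : ((p : GaussianInt)) ^ 3 = (((p : ℤ) ^ 3 : ℤ) : GaussianInt) := by push_cast; rfl
  rw [hc3] at h'
  simp only [Zsqrtd.re_add, Zsqrtd.re_mul, Zsqrtd.re_natCast, Zsqrtd.im_natCast, mul_zero,
    zero_mul, add_zero, Zsqrtd.re_intCast, Zsqrtd.im_intCast, I] at h'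
  have h2m : 2 ^ m = u ^ 2 := by
    rw [hpd, pow_succ] at hu2
    linarith
  obtain ⟨s, hs⟩ := hc
  rw [h2m] at hs
  refine ⟨u, v, a, b, -χ * y.re - 6 * u ^ 2 * s, h2m, rfl, ha, hb, ?_⟩
  linear_combination (-χ) * h' - 6 * u ^ 2 * hs + (-6 * u ^ 2 * c - 60 * p ^ 2 * E) * hχ

theorem q1 (p : ℕ) (hp : p.Prime) (h3 : 3 < p) : ∃ r : ℚ, ¬ p ∣ r.den ∧
    ∑ k ∈ range p, (7 * (k : ℚ) + 1) * (((4 * k).factorial : ℚ) / (k.factorial : ℚ) ^ 4) / 648 ^ k
      - ((-1) ^ ((p - 1) / 2) * (p : ℚ) - 5 / 3 * (((p - 3).factorial : ℚ) *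
        PowerSeries.coeff (p - 3) (2 * (PowerSeries.exp ℚ +
          PowerSeries.rescale (-1) (PowerSeries.exp ℚ))⁻¹)) * (p : ℚ) ^ 3) = (p : ℚ) ^ 4 * r := by
  obtain ⟨E, hE1, hE⟩ := euler_mod _ euler_gf p (p - 3) (hp.odd_of_ne_two (by omega))
  obtain ⟨w, hw⟩ := wolstenholme hp h3
  obtain ⟨m, rfl⟩ : ∃ m, p = m + 1 := ⟨p - 1, by omega⟩
  obtain ⟨u, v, a, b, t, h2, hv3, hu, hv, ht⟩ := int_cong hp h3 E hE
  have hT := T_eq (m + 1)
  rw [hE1, Nat.add_sub_cancel]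
  rw [Nat.add_sub_cancel] at hT
  have e1 : ∑ k ∈ range (m + 1), (7 * (k : ℚ) + 1) *
      (((4 * k).factorial : ℚ) / (k.factorial : ℚ) ^ 4) / 648 ^ k =
      (∑ k ∈ range (m + 1), (7 * (k : ℚ) + 1) *
      (((4 * k).factorial : ℚ) / (k.factorial : ℚ) ^ 4) * 648 ^ (m - k)) / 648 ^ m := by
    rw [sum_div]
    apply sum_congr rfl
    intro k hk
    have hk := mem_range.1 hk
    obtain ⟨d, rfl⟩ : ∃ d, m = k + d := ⟨m - k, by omega⟩
    rw [Nat.add_sub_cancel_left, pow_add]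
    field_simp
  have e2 : (648 : ℤ) ^ m = u ^ 6 * v ^ 4 := by
    rw [show (648 : ℤ) = 2 ^ 3 * 3 ^ 4 by norm_num, mul_pow, ← pow_mul, ← pow_mul, mul_comm 3 m,
      mul_comm 4 m, pow_mul, pow_mul, h2, hv3]
    ring
  obtain ⟨s, hs⟩ : ((m + 1 : ℕ) : ℤ) ∣ u ^ 10 * v ^ 4 - 1 := by
    rw [← ZMod.intCast_zmod_eq_zero_iff_dvd, hu, hv]
    simp only [Int.cast_sub, Int.cast_mul, Int.cast_pow, Int.cast_add, Int.cast_natCast,
      ZMod.natCast_self]
    simp
  set p := m + 1 with hpd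
  have hpz : Prime (p : ℤ) := Nat.prime_iff_prime_int.1 hp
  have nd : ¬ (p : ℤ) ∣ 36 * (u ^ 10 * v ^ 4) := by
    intro h
    rcases hpz.dvd_or_dvd h with h | h
    · have h' : p ∣ 6 ^ 2 := by exact_mod_cast h
      have h6 : p ∣ 2 * 3 := hp.dvd_of_dvd_pow h'
      rcases (Nat.Prime.dvd_mul hp).1 h6 with h | h <;> have := Nat.le_of_dvd (by norm_num) h <;>
        omega
    · have : (p : ℤ) ∣ 1 := by
        have := dvd_sub h (Dvd.intro _ hs.symm)
        simpa using this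
      exact hpz.not_dvd_one this
  have hne : (36 * (u ^ 10 * v ^ 4) : ℤ) ≠ 0 := by
    intro h
    exact nd (h ▸ dvd_zero _)
  have hu0 : (u : ℚ) ≠ 0 := by
    intro h
    apply hne
    have : u = 0 := by exact_mod_cast h
    simp [this]
  have hv0 : (v : ℚ) ≠ 0 := by
    intro h
    apply hne
    have : v = 0 := by exact_mod_cast h
    simp [this]
  refine ⟨((t + 60 * E * s + 18 * w * ZZ m * u ^ 4 : ℤ) : ℚ) / ((36 * (u ^ 10 * v ^ 4) : ℤ) : ℚ),
    ?_, ?_⟩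
  · intro h
    apply nd
    have := Rat.den_dvd (t + 60 * E * s + 18 * w * ZZ m * u ^ 4) (36 * (u ^ 10 * v ^ 4))
    rw [Rat.divInt_eq_div] at this
    exact (Int.natCast_dvd_natCast.2 h).trans this
  · have e2' : (648 : ℚ) ^ m = u ^ 6 * v ^ 4 := by exact_mod_cast e2
    have hz : (zz p : ℚ) = ZZ m := by exact_mod_cast zz_succ m
    have hw' : (p.centralBinom : ℚ) = 2 + (p : ℚ) ^ 3 * w := by exact_mod_cast hw
    have ht' : 36 * (u : ℚ) ^ 4 * (ZZ m - (-1) ^ (m / 2) * u ^ 6 * v ^ 4) + 60 * (p : ℚ) ^ 2 * E =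
        (p : ℚ) ^ 3 * t := by exact_mod_cast ht
    have hs' : (u : ℚ) ^ 10 * v ^ 4 - 1 = p * s := by exact_mod_cast hs
    rw [e1, hT, e2', hz, hw']
    push_cast
    field_simp
    linear_combination 6 * ht' + 360 * p ^ 2 * E * hs'

end Pool.Agent.P.MP_9db4f5_nt
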