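import Mathlib

namespace Pool.Agent.P.MP_9db4f5_nt

open PowerSeries Finset

noncomputable def D1 : ℤ⟦X⟧ := 1 + 3 * X
noncomputable def D2 : ℤ⟦X⟧ := 1 + 2 * X
noncomputable def I2 : ℤ⟦X⟧ := PowerSeries.mk fun j => (-2) ^ j

lemma I2_mul_D2 : I2 * D2 = 1 := by
  ext n
  have h2 : (2 : ℤ⟦X⟧) = C 2 := rfl
  rw [D2, mul_add, mul_one, ← mul_assoc, map_add]
  cases n with
  | zero => simp [I2]
  | succ n =>
    rw [coeff_succ_mul_X, h2, coeff_mul_C]
    simp [I2, pow_succ, coeff_one]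

lemma deriv_D1 : derivative ℤ D1 = 3 := by
  have h3 : (3 : ℤ⟦X⟧) = C 3 := rfl
  rw [D1, map_add, derivative_one, Derivation.leibniz, h3, derivative_C, derivative_X]
  simp

lemma deriv_D2 : derivative ℤ D2 = 2 := by
  have h3 : (2 : ℤ⟦X⟧) = C 2 := rfl
  rw [D2, map_add, derivative_one, Derivation.leibniz, h3, derivative_C, derivative_X]
  simp

lemma deriv_I2 : derivative ℤ I2 = -2 * I2 ^ 2 := by
  have h := congrArg (derivative ℤ) I2_mul_D2
  rw [Derivation.leibniz, deriv_D2, derivative_one, smul_eq_mul, smul_eq_mul] at h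
  have h1 := I2_mul_D2
  linear_combination I2 * h - derivative ℤ I2 * h1

lemma const_D1 : constantCoeff D1 = 1 := by simp [D1]
lemma const_I2 : constantCoeff I2 = 1 := by simp [I2]

lemma D1_eq : D1 = D2 + X := by rw [D1, D2]; ring

lemma coeff_D1_pow (N : ℕ) : ∀ r, N < r → coeff r (D1 ^ N) = 0 := by
  induction N with
  | zero =>
    intro r h
    rw [pow_zero, coeff_one, if_neg (by omega)]
  | succ N ih =>
    intro r h
    obtain ⟨r, rfl⟩ : ∃ t, r = t + 1 := ⟨r - 1, by omega⟩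
    have e : D1 ^ (N + 1) = D1 ^ N + C 3 * (D1 ^ N * X) := by
      have h3 : (3 : ℤ⟦X⟧) = C 3 := rfl
      rw [← h3, pow_succ D1 N]
      nth_rewrite 2 [D1]
      ring
    rw [e, map_add, coeff_C_mul, coeff_succ_mul_X, ih _ (by omega), ih _ (by omega)]
    simp

lemma diag (N : ℕ) : ∀ M r : ℕ, N + 1 = M + r →
    coeff r (D1 ^ N * I2 ^ M) = (N.choose r : ℤ) := by
  induction N with
  | zero =>
    intro M r h
    rcases r with _ | r
    · simp [const_I2]
    · have hM : M = 0 := by omega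
      have hr : r = 0 := by omega
      subst hM hr
      simp [coeff_one]
  | succ N ih =>
    intro M r h
    rcases r with _ | r
    · simp [const_I2, const_D1]
    · rcases M with _ | M
      · rw [pow_zero, mul_one, coeff_D1_pow _ _ (by omega), Nat.choose_eq_zero_of_lt (by omega)]
        simp
      · have e : D1 ^ (N + 1) * I2 ^ (M + 1) = D1 ^ N * I2 ^ M + D1 ^ N * I2 ^ (M + 1) * X := by
          have h1 := I2_mul_D2
          rw [pow_succ D1 N]
          nth_rewrite 2 [D1_eq]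
          linear_combination D1 ^ N * I2 ^ M * h1
        rw [e, map_add, coeff_succ_mul_X, ih M (r + 1) (by omega), ih (M + 1) r (by omega),
          Nat.choose_succ_succ]
        push_cast
        ring

lemma diag2 (N M r : ℕ) (h : N = M + r) :
    coeff (r + 1) (D1 ^ N * I2 ^ (M + 1)) = (N.choose (r + 1) : ℤ) - 2 * (N.choose r : ℤ) := by
  have e : D1 ^ N * I2 ^ M = D1 ^ N * I2 ^ (M + 1) + C 2 * (D1 ^ N * I2 ^ (M + 1) * X) := by
    have h1 := I2_mul_D2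
    have h3 : (2 : ℤ⟦X⟧) = C 2 := rfl
    rw [← h3]
    rw [D2] at h1
    linear_combination (-(D1 ^ N * I2 ^ M)) * h1
  have h1 := diag N M (r + 1) (by omega)
  rw [e, map_add, coeff_C_mul, coeff_succ_mul_X, diag N (M + 1) r (by omega)] at h1
  linarith

/-- f_{m+1} -/
noncomputable def ff (m : ℕ) : ℤ⟦X⟧ := D1 ^ (4 * m + 3) * I2 ^ (2 * m + 2)

noncomputable def GG (m : ℕ) : ℤ⟦X⟧ := D1 ^ (4 * m + 4) * I2 ^ (2 * m + 3) * (3 * X + 2)

lemma ode_aux {R : Type*} [CommRing R] (a b c n s : R) (h1 : c * (1 + 2 * s) = 1) :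
    (9 * s ^ 2 - 2) *
          (a * (1 + 3 * s) * (b * c) * 3 +
            (3 * s + 2) * (a * (1 + 3 * s) * ((2 * n + 3) * b * (-2 * c ^ 2)) +
              b * c * ((4 * n + 4) * a * 3))) +
        9 * s * (a * (1 + 3 * s) * (b * c) * (3 * s + 2)) =
      2 * (2 * n + 3) * (a * (1 + 3 * s) ^ 4 * (b * c ^ 2)) - 36 * (n + 1) * (a * b) := by
  grind

lemma GG_ode (m : ℕ) : (9 * X ^ 2 - 2) * derivative ℤ (GG m) + 9 * X * GG m =
    2 * (2 * (m : ℤ⟦X⟧) + 3) * ff (m + 1) - 36 * ((m : ℤ⟦X⟧) + 1) * ff m := by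
  have h3 : (3 : ℤ⟦X⟧) = C 3 := rfl
  have h2 : (2 : ℤ⟦X⟧) = C 2 := rfl
  have hd : derivative ℤ (3 * X + 2 : ℤ⟦X⟧) = 3 := by
    rw [map_add, Derivation.leibniz, h3, h2, derivative_C, derivative_C, derivative_X]
    simp
  have h1 := I2_mul_D2
  rw [GG, Derivation.leibniz, Derivation.leibniz, derivative_pow, derivative_pow, hd, deriv_D1,
    deriv_I2, ff, ff]
  simp only [smul_eq_mul]
  have e1 : 4 * m + 4 - 1 = 4 * m + 3 := by omega
  have e2 : 2 * m + 3 - 1 = 2 * m + 2 := by omega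
  rw [e1, e2]
  push_cast
  have p1 : D1 ^ (4 * m + 4) = D1 ^ (4 * m + 3) * D1 := by ring
  have p2 : D1 ^ (4 * (m + 1) + 3) = D1 ^ (4 * m + 3) * D1 ^ 4 := by ring
  have p3 : I2 ^ (2 * m + 3) = I2 ^ (2 * m + 2) * I2 := by ring
  have p4 : I2 ^ (2 * (m + 1) + 2) = I2 ^ (2 * m + 2) * I2 ^ 2 := by ring
  rw [p1, p2, p3, p4]
  generalize D1 ^ (4 * m + 3) = a
  generalize I2 ^ (2 * m + 2) = b
  rw [D2] at h1
  rw [D1]
  exact ode_aux a b I2 m X h1

lemma coeff_GG_top (m : ℕ) : coeff (2 * m + 3) (GG m) =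
    2 * ((4 * m + 4).choose (2 * m + 3) : ℤ) - ((4 * m + 4).choose (2 * m + 2) : ℤ) := by
  have e : GG m = C 3 * (D1 ^ (4 * m + 4) * I2 ^ (2 * m + 2 + 1) * X) +
      C 2 * (D1 ^ (4 * m + 4) * I2 ^ (2 * m + 2 + 1)) := by
    have h3 : (3 : ℤ⟦X⟧) = C 3 := rfl
    have h2 : (2 : ℤ⟦X⟧) = C 2 := rfl
    rw [← h3, ← h2, GG]
    ring
  have e3 : 2 * m + 3 = 2 * m + 2 + 1 := rfl
  rw [e, map_add, coeff_C_mul, coeff_C_mul, e3, coeff_succ_mul_X, diag _ _ _ (by omega),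
    diag2 _ _ _ (by omega)]
  ring

lemma coeff_ode (G : ℤ⟦X⟧) (k : ℕ) :
    coeff (2 * k + 2) ((9 * X ^ 2 - 2) * derivative ℤ G + 9 * X * G) =
      18 * (k + 1) * coeff (2 * k + 1) G - 2 * (2 * k + 3) * coeff (2 * k + 3) G := by
  have e : (9 * X ^ 2 - 2) * derivative ℤ G + 9 * X * G =
      C 9 * (derivative ℤ G * X * X) - C 2 * derivative ℤ G + C 9 * (G * X) := by
    have h3 : (9 : ℤ⟦X⟧) = C 9 := rfl
    have h2 : (2 : ℤ⟦X⟧) = C 2 := rfl
    rw [← h3, ← h2]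
    ring
  have e3 : 2 * k + 2 = 2 * k + 1 + 1 := rfl
  rw [e, map_add, map_sub, coeff_C_mul, coeff_C_mul, coeff_C_mul, e3, coeff_succ_mul_X,
    coeff_succ_mul_X, coeff_succ_mul_X, coeff_derivative, coeff_derivative]
  push_cast
  ring

lemma coeff_ode0 (G : ℤ⟦X⟧) :
    coeff 0 ((9 * X ^ 2 - 2) * derivative ℤ G + 9 * X * G) = - 2 * coeff 1 G := by
  have e : (9 * X ^ 2 - 2) * derivative ℤ G + 9 * X * G =
      C 9 * (derivative ℤ G * X * X) - C 2 * derivative ℤ G + C 9 * (G * X) := by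
    have h3 : (9 : ℤ⟦X⟧) = C 9 := rfl
    have h2 : (2 : ℤ⟦X⟧) = C 2 := rfl
    rw [← h3, ← h2]
    ring
  rw [e, map_add, map_sub, coeff_C_mul, coeff_C_mul, coeff_C_mul, coeff_derivative]
  simp

/-- the functional -/
noncomputable def Phi (n : ℕ) (F : ℤ⟦X⟧) : ℤ :=
  ∑ k ∈ range n, 18 ^ (n - 1 - k) * (k.centralBinom : ℤ) * coeff (2 * k) F

lemma Phi_succ (n : ℕ) (F : ℤ⟦X⟧) :
    Phi (n + 1) F = 18 * Phi n F + (n.centralBinom : ℤ) * coeff (2 * n) F := by
  rw [Phi, Phi, sum_range_succ, mul_sum]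
  congr 1
  · apply sum_congr rfl
    intro k hk
    have hk := mem_range.1 hk
    have : n + 1 - 1 - k = (n - 1 - k) + 1 := by omega
    rw [this]
    ring
  · simp

lemma Phi_ode (G : ℤ⟦X⟧) (n : ℕ) :
    Phi (n + 1) ((9 * X ^ 2 - 2) * derivative ℤ G + 9 * X * G) =
      -2 * (2 * n + 1) * (n.centralBinom : ℤ) * coeff (2 * n + 1) G := by
  induction n with
  | zero =>
    rw [Phi_succ, coeff_ode0]
    simp [Phi]
  | succ n ih =>
    rw [Phi_succ, ih]
    have e : 2 * (n + 1) = 2 * n + 2 := by ring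
    have e' : 2 * n + 2 + 1 = 2 * n + 3 := by ring
    rw [e, e', coeff_ode]
    have h : ((n : ℤ) + 1) * ((n + 1).centralBinom : ℤ) = 2 * (2 * n + 1) * n.centralBinom := by
      exact_mod_cast Nat.succ_mul_centralBinom_succ n
    push_cast
    linear_combination 18 * coeff (2 * n + 1) G * h

lemma Phi_lin (n : ℕ) (a b : ℤ) (F G : ℤ⟦X⟧) :
    Phi n (C a * F - C b * G) = a * Phi n F - b * Phi n G := by
  simp only [Phi, map_sub, coeff_C_mul, mul_sum, ← sum_sub_distrib]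
  apply sum_congr rfl
  intro k _
  ring

/-- Z_{m+1} -/
noncomputable def ZZ (m : ℕ) : ℤ := Phi (m + 1) (ff m)

lemma ZZ_zero : ZZ 0 = 1 := by
  simp [ZZ, Phi, ff, const_D1, const_I2]

lemma ZZ_succ (m : ℕ) : (2 * m + 3) * ZZ (m + 1) = 324 * (m + 1) * ZZ m +
    (7 * m + 8) * ((m + 1).centralBinom : ℤ) * ((2 * m + 2).centralBinom : ℤ) := by
  have h := Phi_ode (GG m) (m + 1)
  rw [GG_ode] at h
  have e : 2 * (2 * (m : ℤ⟦X⟧) + 3) * ff (m + 1) - 36 * ((m : ℤ⟦X⟧) + 1) * ff m =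
      C (2 * (2 * (m : ℤ) + 3)) * ff (m + 1) - C (36 * ((m : ℤ) + 1)) * ff m := by
    simp only [map_mul, map_add, map_natCast, map_ofNat, map_one]
  rw [e, Phi_lin, Phi_succ (m + 1) (ff m)] at h
  have e1 : 2 * (m + 1) + 1 = 2 * m + 3 := by ring
  have e2 : 2 * (m + 1) = 2 * m + 2 := by ring
  rw [e1, e2, coeff_GG_top] at h
  have h2 : coeff (2 * m + 2) (ff m) = ((4 * m + 3).choose (2 * m + 2) : ℤ) := by
    rw [ff, diag _ _ _ (by omega)]
  rw [h2] at h
  have c1 : ((2 * m + 2).centralBinom : ℤ) = ((4 * m + 4).choose (2 * m + 2) : ℤ) := by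
    rw [Nat.centralBinom]
    congr 2
    ring
  have c2 : ((4 * m + 4).choose (2 * m + 2) : ℤ) = 2 * ((4 * m + 3).choose (2 * m + 2) : ℤ) := by
    have := Nat.choose_succ_succ (4 * m + 3) (2 * m + 1)
    have hs : (4 * m + 3).choose (2 * m + 1) = (4 * m + 3).choose (2 * m + 2) := by
      rw [← Nat.choose_symm (n := 4 * m + 3) (k := 2 * m + 1) (by omega)]
      congr 1
      omega
    simp only [Nat.succ_eq_add_one] at this
    rw [hs] at this
    have e4 : 4 * m + 4 = 4 * m + 3 + 1 := rfl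
    have e5 : 2 * m + 2 = 2 * m + 1 + 1 := rfl
    rw [e4]
    nth_rewrite 1 [e5]
    rw [this]
    push_cast
    ring
  have c3 : ((4 * m + 4).choose (2 * m + 3) : ℤ) * (2 * m + 3) =
      ((4 * m + 4).choose (2 * m + 2) : ℤ) * (2 * m + 2) := by
    have := Nat.choose_succ_right_eq (4 * m + 4) (2 * m + 2)
    have e4 : 4 * m + 4 - (2 * m + 2) = 2 * m + 2 := by omega
    rw [e4] at this
    exact_mod_cast this
  rw [c1]
  unfold ZZ
  push_cast at h
  rw [c2] at h c3 ⊢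
  have h2 : (2 : ℤ) ≠ 0 := by norm_num
  apply mul_left_cancel₀ h2
  linear_combination h - 4 * ((m + 1).centralBinom : ℤ) * c3

end Pool.Agent.P.MP_9db4f5_nt
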