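import Pool.Agent.P.MP_9db4f5_nt.Rec

namespace Pool.Agent.P.MP_9db4f5_nt

open Finset

section
open PowerSeries

lemma Phi_add (n : ℕ) (F G : ℤ⟦X⟧) : Phi n (F + G) = Phi n F + Phi n G := by
  simp only [Phi, map_add, mul_add, sum_add_distrib]

lemma Phi_C_mul (n : ℕ) (a : ℤ) (F : ℤ⟦X⟧) : Phi n (C a * F) = a * Phi n F := by
  simp only [Phi, coeff_C_mul, mul_sum]
  apply sum_congr rfl
  intro k _
  ring

lemma Phi_X2 (n : ℕ) (F : ℤ⟦X⟧) : Phi n (X ^ (2 * n) * F) = 0 := by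
  apply sum_eq_zero
  intro k hk
  have hk := mem_range.1 hk
  rw [coeff_X_pow_mul', if_neg (by omega), mul_zero]

lemma Phi_X1 {p : ℕ} (hp : p.Prime) (F : ℤ⟦X⟧) : (p : ℤ) ∣ Phi p (X ^ p * F) := by
  apply dvd_sum
  intro k hk
  have hk := mem_range.1 hk
  rw [coeff_X_pow_mul']
  split_ifs with h
  · apply Dvd.dvd.mul_right
    apply Dvd.dvd.mul_left
    have := hp.dvd_choose_add hk hk (by omega)
    rw [Nat.centralBinom, two_mul]
    exact_mod_cast this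
  · simp

lemma Phi_cube {p : ℕ} (hp : p.Prime) (H : ℤ⟦X⟧) :
    (p : ℤ) ^ 3 ∣ Phi p ((D1 ^ p - D2 ^ p) ^ 3 * H) := by
  obtain ⟨r1, h1⟩ := exists_add_pow_prime_eq hp (1 : ℤ⟦X⟧) (3 * X)
  obtain ⟨r2, h2⟩ := exists_add_pow_prime_eq hp (1 : ℤ⟦X⟧) (2 * X)
  obtain ⟨a, c, h⟩ : ∃ a c : ℤ⟦X⟧, D1 ^ p - D2 ^ p = (p : ℤ⟦X⟧) * a + X ^ p * c := by
    refine ⟨3 * X * r1 - 2 * X * r2, 3 ^ p - 2 ^ p, ?_⟩
    rw [D1, D2, h1, h2, mul_pow, mul_pow]
    ring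
  have e : (D1 ^ p - D2 ^ p) ^ 3 * H = C ((p : ℤ) ^ 3) * (a ^ 3 * H) +
      C ((p : ℤ) ^ 2) * (X ^ p * (3 * a ^ 2 * c * H)) +
      X ^ (2 * p) * ((3 * (p : ℤ⟦X⟧) * a * c ^ 2 + X ^ p * c ^ 3) * H) := by
    rw [h]
    simp only [map_pow, map_natCast]
    ring
  rw [e, Phi_add, Phi_add, Phi_X2, add_zero, Phi_C_mul, Phi_C_mul]
  apply dvd_add (dvd_mul_right _ _)
  rw [pow_succ (p : ℤ) 2]
  exact mul_dvd_mul_left _ (Phi_X1 hp _)

lemma Phi_ff {m : ℕ} (hp : (m + 1).Prime) (t : ℤ⟦X⟧)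
    (ht : D1 * t = 6 * D1 ^ (2 * (m + 1)) - 8 * (D1 ^ (m + 1) * D2 ^ (m + 1)) +
      3 * D2 ^ (2 * (m + 1)) - 3 * X ^ (2 * (m + 1))) :
    ((m + 1 : ℕ) : ℤ) ^ 3 ∣ ZZ m - Phi (m + 1) t := by
  obtain ⟨I1, hI⟩ : ∃ I1 : ℤ⟦X⟧, D1 * I1 = 1 := by
    have : IsUnit D1 := by
      rw [PowerSeries.isUnit_iff_constantCoeff, const_D1]
      exact isUnit_one
    exact this.exists_right_inv
  have h2 : (I2 ^ (m + 1) * D2 ^ (m + 1)) = 1 := by rw [← mul_pow, I2_mul_D2, one_pow]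
  have e : ff m = t + (D1 ^ (m + 1) - D2 ^ (m + 1)) ^ 3 *
      ((D1 ^ (m + 1) + 3 * D2 ^ (m + 1)) * (I2 ^ (m + 1)) ^ 2 * I1) +
      X ^ (2 * (m + 1)) * (3 * I1) := by
    have e1 : D1 * ff m = (D1 ^ (m + 1)) ^ 4 * (I2 ^ (m + 1)) ^ 2 := by rw [ff]; ring
    have e2 : D1 ^ (2 * (m + 1)) = (D1 ^ (m + 1)) ^ 2 := by ring
    have e3 : D2 ^ (2 * (m + 1)) = (D2 ^ (m + 1)) ^ 2 := by ring
    rw [e2, e3] at ht
    generalize D1 ^ (m + 1) = x at *
    generalize D2 ^ (m + 1) = y at *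
    generalize I2 ^ (m + 1) = u at *
    generalize (X : ℤ⟦X⟧) ^ (2 * (m + 1)) = s at *
    linear_combination I1 * e1 - I1 * ht - (ff m - t) * hI +
      I1 * (6 * x ^ 2 - 8 * x * y + 3 * y ^ 2) * (u * y + 1) * h2
  rw [ZZ, e, Phi_add, Phi_add, Phi_X2, add_zero, add_sub_cancel_left]
  exact Phi_cube hp _

end

section
open Polynomial

lemma sum_even_odd {M : Type*} [AddCommMonoid M] (g : ℕ → M) (n : ℕ) :
    ∑ j ∈ range (2 * n), g j = ∑ k ∈ range n, (g (2 * k) + g (2 * k + 1)) := by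
  induction n with
  | zero => simp
  | succ n ih =>
    rw [show 2 * (n + 1) = 2 * n + 1 + 1 by ring, sum_range_succ, sum_range_succ, ih,
      sum_range_succ, add_assoc]

lemma sig_pow (j : ℕ) : ((X : ℤ[X]) ^ 2 + 2) ^ j = expand ℤ 2 ((X + C 2) ^ j) := by
  rw [map_pow, map_add, expand_X, expand_C]
  rfl

noncomputable def Hom (N : ℕ) (t : ℤ[X]) : ℤ[X] :=
  ∑ j ∈ range (N + 1), C (t.coeff j) * (X ^ 2 + 2) ^ j * (6 * X) ^ (N - j)

lemma coeff_Hom (m : ℕ) (t : ℤ[X]) :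
    (Hom (2 * m + 1) t).coeff (2 * m + 1) = 6 * 2 ^ m * Phi (m + 1) t := by
  rw [Hom, finsetSum_coeff, show 2 * m + 1 + 1 = 2 * (m + 1) by ring, sum_even_odd, Phi, mul_sum]
  apply sum_congr rfl
  intro k hk
  have hk := mem_range.1 hk
  have h6 : (6 : ℤ[X]) = C 6 := rfl
  have key : ∀ j, j ≤ 2 * m + 1 →
      (C (t.coeff j) * (X ^ 2 + 2) ^ j * (6 * X) ^ (2 * m + 1 - j)).coeff (2 * m + 1) =
      t.coeff j * 6 ^ (2 * m + 1 - j) * (((X : ℤ[X]) ^ 2 + 2) ^ j).coeff j := by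
    intro j hj
    have e : C (t.coeff j) * (X ^ 2 + 2) ^ j * (6 * X) ^ (2 * m + 1 - j) =
        C (t.coeff j * 6 ^ (2 * m + 1 - j)) * ((X ^ 2 + 2) ^ j * X ^ (2 * m + 1 - j)) := by
      rw [mul_pow, h6, map_mul, map_pow]
      ring
    rw [e, coeff_C_mul, coeff_mul_X_pow', if_pos (by omega),
      show 2 * m + 1 - (2 * m + 1 - j) = j by omega]
  rw [key _ (by omega), key _ (by omega), sig_pow, sig_pow, coeff_expand (by norm_num),
    coeff_expand (by norm_num), if_pos (dvd_mul_right 2 k), if_neg (by omega),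
    Nat.mul_div_cancel_left _ (by norm_num), coeff_X_add_C_pow, coeff_coe, Nat.centralBinom]
  obtain ⟨d, rfl⟩ : ∃ d, m = k + d := ⟨m - k, by omega⟩
  rw [show 2 * (k + d) + 1 - 2 * k = 2 * d + 1 by omega, show 2 * k - k = k by omega,
    show k + d + 1 - 1 - k = d by omega]
  have : (6 : ℤ) ^ (2 * d) = 2 ^ d * 18 ^ d := by
    rw [pow_mul, ← mul_pow]
    norm_num
  rw [pow_succ, this]
  ring

lemma Hom_spec {K : Type*} [Field K] [Algebra ℤ[X] K] (N : ℕ) (t : ℤ[X]) (ht : t.natDegree ≤ N)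
    (hw : algebraMap ℤ[X] K (6 * X) ≠ 0) :
    algebraMap ℤ[X] K (Hom N t) = algebraMap ℤ[X] K (6 * X) ^ N *
      eval₂ (Int.castRingHom K) (algebraMap ℤ[X] K (X ^ 2 + 2) / algebraMap ℤ[X] K (6 * X)) t := by
  rw [Hom, eval₂_eq_sum_range' _ (Nat.lt_succ_of_le ht), map_sum, mul_sum]
  apply sum_congr rfl
  intro j hj
  have hj := mem_range.1 hj
  obtain ⟨d, rfl⟩ : ∃ d, N = j + d := ⟨N - j, by omega⟩
  rw [map_mul, map_mul, map_pow, map_pow, Nat.add_sub_cancel_left, eq_intCast C, map_intCast,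
    eq_intCast, div_pow, pow_add]
  field_simp

theorem exists_Q {m : ℕ} (hp : (m + 1).Prime) : ∃ Q : ℤ[X],
    3 * (X ^ 2 + 2 * X + 2) * Q = 6 * (3 * (X ^ 2 + 2 * X + 2)) ^ (2 * (m + 1)) -
      8 * ((3 * (X ^ 2 + 2 * X + 2)) ^ (m + 1) * (2 * (X ^ 2 + 3 * X + 2)) ^ (m + 1)) +
      3 * (2 * (X ^ 2 + 3 * X + 2)) ^ (2 * (m + 1)) - 3 * (X ^ 2 + 2) ^ (2 * (m + 1)) ∧
    ((m + 1 : ℕ) : ℤ) ^ 3 ∣ Q.coeff (2 * m + 1) - 6 * 2 ^ m * ZZ m := by
  set d1 : ℤ[X] := 1 + 3 * X with hd1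
  set d2 : ℤ[X] := 1 + 2 * X with hd2
  set t : ℤ[X] := 6 * d1 ^ (2 * m + 1) - 8 * (d1 ^ m * d2 ^ (m + 1)) +
    3 * ((1 + X) * ∑ i ∈ range (m + 1), (d2 ^ 2) ^ i * (X ^ 2) ^ (m + 1 - 1 - i)) with ht
  have h1 : d1 * t = 6 * d1 ^ (2 * (m + 1)) - 8 * (d1 ^ (m + 1) * d2 ^ (m + 1)) +
      3 * d2 ^ (2 * (m + 1)) - 3 * X ^ (2 * (m + 1)) := by
    have h := Commute.geom_sum₂_mul (Commute.all (d2 ^ 2) (X ^ 2)) (m + 1)
    have h' : d2 ^ 2 - X ^ 2 = (1 + X) * d1 := by rw [hd1, hd2]; ring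
    rw [h', ← pow_mul, ← pow_mul] at h
    rw [ht]
    linear_combination 3 * h
  have n1 : d1.natDegree ≤ 1 := by rw [hd1]; compute_degree
  have n2 : d2.natDegree ≤ 1 := by rw [hd2]; compute_degree
  have hdeg : t.natDegree ≤ 2 * m + 1 := by
    have c6 : (6 : ℤ[X]) = C 6 := rfl
    have c8 : (8 : ℤ[X]) = C 8 := rfl
    have c3 : (3 : ℤ[X]) = C 3 := rfl
    rw [ht, c6, c8]
    nth_rewrite 1 [c3]
    refine natDegree_add_le_of_degree_le ((natDegree_sub_le_of_le (m := 2 * m + 1)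
      (n := 2 * m + 1) ?_ ?_).trans (by simp)) ?_
    · refine (natDegree_C_mul_le _ _).trans ((natDegree_pow_le_of_le _ n1).trans (by omega))
    · refine (natDegree_C_mul_le _ _).trans ((natDegree_mul_le_of_le
        (natDegree_pow_le_of_le _ n1) (natDegree_pow_le_of_le _ n2)).trans (by omega))
    · refine (natDegree_C_mul_le _ _).trans ((natDegree_mul_le_of_le (m := 1) (n := 2 * m)
        (by compute_degree) ?_).trans (by omega))
      apply natDegree_sum_le_of_forall_le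
      intro i hi
      have hi := mem_range.1 hi
      refine (natDegree_mul_le_of_le (natDegree_pow_le_of_le _ (natDegree_pow_le_of_le _ n2))
        (natDegree_pow_le_of_le _ (natDegree_X_pow_le 2))).trans (by omega)
  refine ⟨Hom (2 * m + 1) t, ?_, ?_⟩
  · let K := FractionRing ℤ[X]
    have inj : Function.Injective (algebraMap ℤ[X] K) := IsFractionRing.injective _ _
    have hw : algebraMap ℤ[X] K (6 * X) ≠ 0 := by
      rw [Ne, map_eq_zero_iff _ inj]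
      exact mul_ne_zero (by norm_num) X_ne_zero
    apply inj
    rw [map_mul, Hom_spec _ _ hdeg hw]
    have h2 := congrArg (eval₂RingHom (Int.castRingHom K)
      (algebraMap ℤ[X] K (X ^ 2 + 2) / algebraMap ℤ[X] K (6 * X))) h1
    rw [map_mul, coe_eval₂RingHom] at h2
    rw [← coe_eval₂RingHom] at h2
    have a1 : (3 * (X ^ 2 + 2 * X + 2) : ℤ[X]) = 6 * X + 3 * (X ^ 2 + 2) := by ring
    have a2 : (2 * (X ^ 2 + 3 * X + 2) : ℤ[X]) = 6 * X + 2 * (X ^ 2 + 2) := by ring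
    rw [a1, a2]
    rw [hd1, hd2] at h2
    simp only [map_sub, map_add, map_mul, map_pow, map_ofNat, map_one, coe_eval₂RingHom,
      eval₂_X] at h2 hw ⊢
    generalize eval₂ (Int.castRingHom K) _ t = T at *
    generalize 6 * algebraMap ℤ[X] K X = w at *
    generalize algebraMap ℤ[X] K X ^ 2 + 2 = s at *
    have b0 : w * (s / w) = s := mul_div_cancel₀ _ hw
    have b1 : w + 3 * s = w * (1 + 3 * (s / w)) := by linear_combination -3 * b0
    have b2 : w + 2 * s = w * (1 + 2 * (s / w)) := by linear_combination -2 * b0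
    have b3 : s ^ (2 * (m + 1)) = w ^ (2 * (m + 1)) * (s / w) ^ (2 * (m + 1)) := by
      rw [← mul_pow, b0]
    rw [b1, b2, b3, mul_pow, mul_pow, mul_pow, mul_pow]
    linear_combination w ^ (2 * (m + 1)) * h2
  · rw [coeff_Hom, ← mul_sub]
    apply Dvd.dvd.mul_left
    rw [dvd_sub_comm]
    apply Phi_ff hp
    have h2 := congrArg (coeToPowerSeries.ringHom (R := ℤ)) h1
    rw [map_mul, coeToPowerSeries.ringHom_apply (φ := t), hd1, hd2] at h2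
    simp only [map_sub, map_add, map_mul, map_pow, map_ofNat, map_one,
      coeToPowerSeries.ringHom_apply, coe_X] at h2
    exact h2

end

end Pool.Agent.P.MP_9db4f5_nt
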