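import Pool.Agent.P.MP_9db4f5_nt.Dilog

namespace Pool.Agent.P.MP_9db4f5_nt

open Finset Polynomial

section
variable {R : Type*} [CommRing R]

def Tr (N : ℕ) (z : R) (F : R[X]) : R := ∑ j ∈ range N, F.coeff j * z ^ j

lemma Tr_add (N : ℕ) (z : R) (F G : R[X]) : Tr N z (F + G) = Tr N z F + Tr N z G := by
  simp [Tr, add_mul, sum_add_distrib]

lemma Tr_sub (N : ℕ) (z : R) (F G : R[X]) : Tr N z (F - G) = Tr N z F - Tr N z G := by
  simp [Tr, sub_mul, sum_sub_distrib]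

lemma Tr_C_mul (N : ℕ) (z c : R) (F : R[X]) : Tr N z (C c * F) = c * Tr N z F := by
  simp [Tr, mul_sum, mul_assoc]

lemma Tr_eval (N : ℕ) (z : R) (F : R[X]) (h : F.natDegree < N) : Tr N z F = eval z F := by
  rw [Tr, eval_eq_sum_range' h]

lemma Tr_X_pow_mul (n N : ℕ) (z : R) (F : R[X]) :
    Tr (n + N) z (X ^ n * F) = z ^ n * Tr N z F := by
  rw [Tr, Tr, sum_range_add, mul_sum]
  have : ∑ j ∈ range n, (X ^ n * F).coeff j * z ^ j = 0 := by
    apply sum_eq_zero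
    intro j hj
    rw [coeff_X_pow_mul', if_neg (by have := mem_range.1 hj; omega), zero_mul]
  rw [this, zero_add]
  apply sum_congr rfl
  intro j _
  rw [add_comm n j, coeff_X_pow_mul]
  ring

lemma Tr_X_pow_self (n : ℕ) (z : R) (F : R[X]) : Tr n z (X ^ n * F) = 0 := by
  have := Tr_X_pow_mul n 0 z F
  simpa [Tr] using this

lemma Tr_mul (N : ℕ) (z : R) (F G : R[X]) : Tr N z (F * G) =
    ∑ l ∈ range (N + 1), ∑ k ∈ range (N - l), F.coeff k * G.coeff l * z ^ (k + l) := by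
  rw [sum_range_succ, Nat.sub_self, sum_range_zero, add_zero, Tr]
  rw [← sum_range_diag_flip N (fun l k => F.coeff k * G.coeff l * z ^ (k + l))]
  apply sum_congr rfl
  intro n _
  rw [mul_comm F G, coeff_mul, Nat.sum_antidiagonal_eq_sum_range_succ_mk, sum_mul]
  apply sum_congr rfl
  intro k hk
  have hk := mem_range.1 hk
  rw [show n - k + k = n by omega]
  ring

lemma Tr_root (N : ℕ) (z : R) (H : R[X]) :
    Tr (N + 1) z ((X - C z) * H) = - H.coeff N * z ^ (N + 1) := by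
  induction N with
  | zero => simp [Tr, mul_comm]
  | succ N ih =>
    rw [Tr, sum_range_succ, ← Tr, ih, sub_mul, coeff_sub, coeff_X_mul, coeff_C_mul]
    ring

lemma Tr_expand (N : ℕ) (z : R) (F : R[X]) : Tr (2 * N) z (expand R 2 F) = Tr N (z ^ 2) F := by
  induction N with
  | zero => simp [Tr]
  | succ N ih =>
    rw [show 2 * (N + 1) = 2 * N + 1 + 1 by ring, Tr, sum_range_succ, sum_range_succ, ← Tr, ih,
      Tr, Tr, sum_range_succ, coeff_expand (by norm_num), coeff_expand (by norm_num),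
      if_pos (dvd_mul_right 2 N), if_neg (by omega), Nat.mul_div_cancel_left _ (by norm_num),
      ← pow_mul]
    ring

/-- the polynomial e_a -/
noncomputable def ee (p : ℕ) (a : R) : R[X] := dl p X (C a)

lemma coeff_ee (p : ℕ) (a : R) (k : ℕ) (hk : k ≤ p) :
    (ee p a).coeff k = ((p.choose k / p : ℕ) : R) * a ^ (p - k) := by
  rw [ee, dl, finsetSum_coeff, sum_eq_single k]
  · rw [← C_pow, coeff_mul_C, ← map_natCast (C : R →+* R[X]), coeff_C_mul, coeff_X_pow_self,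
      mul_one]
  · intro j _ hj
    rw [← C_pow, coeff_mul_C, ← map_natCast (C : R →+* R[X]), coeff_C_mul, coeff_X_pow,
      if_neg (Ne.symm hj)]
    simp
  · intro h
    exact absurd (mem_range.2 (by omega)) h

lemma natDegree_ee {p : ℕ} (hp : p.Prime) (a : R) : (ee p a).natDegree ≤ p - 1 := by
  have h1 : 1 / p = 0 := Nat.div_eq_of_lt hp.one_lt
  rw [ee, dl, sum_range_succ, Nat.choose_self, h1]
  simp only [Nat.cast_zero, zero_mul, add_zero]
  apply natDegree_sum_le_of_forall_le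
  intro k hk
  have hk := mem_range.1 hk
  rw [← C_pow, ← map_natCast (C : R →+* R[X])]
  refine (natDegree_mul_C_le _ _).trans ((natDegree_C_mul_le _ _).trans ?_)
  exact (natDegree_X_pow_le k).trans (by omega)

lemma eval_ee (p : ℕ) (a z : R) : eval z (ee p a) = dl p z a := by
  rw [ee, ← coe_evalRingHom, map_dl]
  simp

lemma pow_eq_ee {p : ℕ} (hp : p.Prime) (a : R) :
    (X + C a) ^ p = X ^ p + C (a ^ p) + C (p : R) * ee p a := by
  rw [dl_spec p hp, ee, C_pow, map_natCast]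

/-- the truncated product of two e's -/
noncomputable def LL (p : ℕ) (z a b : R) : R := Tr p z (ee p a * ee p b)

lemma Tr2 {p : ℕ} (hp : p.Prime) (z a : R) :
    Tr p z ((X + C a) ^ (2 * p)) = (a ^ p) ^ 2 + 2 * a ^ p * ((z + a) ^ p - z ^ p - a ^ p) +
      p ^ 2 * LL p z a a := by
  have hd := natDegree_ee hp a
  have hpos := hp.pos
  have e : (X + C a) ^ (2 * p) = C ((a ^ p) ^ 2) * 1 + C (2 * a ^ p * p) * ee p a +
      C ((p : R) ^ 2) * (ee p a * ee p a) +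
      X ^ p * (X ^ p + 2 * C (a ^ p) + 2 * C (p : R) * ee p a) := by
    rw [mul_comm 2 p, pow_mul, pow_eq_ee hp]
    simp only [map_mul, map_pow, map_ofNat]
    ring
  rw [e, Tr_add, Tr_add, Tr_add, Tr_X_pow_self, Tr_C_mul, Tr_C_mul, Tr_C_mul,
    Tr_eval p z 1 (by simpa using hpos), Tr_eval p z (ee p a) (by omega), eval_ee, eval_one,
    dl_spec p hp z a, LL]
  ring

lemma Tr4 {p : ℕ} (hp : p.Prime) (z a1 a2 a3 a4 b1 b2 b3 b4 Z E1 E2 E3 E4 : R)
    (hb1 : a1 ^ p = b1) (hb2 : a2 ^ p = b2) (hb3 : a3 ^ p = b3) (hb4 : a4 ^ p = b4)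
    (hZ : z ^ p = Z) (hE1 : (z + a1) ^ p - Z - b1 = E1) (hE2 : (z + a2) ^ p - Z - b2 = E2)
    (hE3 : (z + a3) ^ p - Z - b3 = E3) (hE4 : (z + a4) ^ p - Z - b4 = E4) :
    ∃ r : R, Tr (2 * p) z ((X + C a1) ^ p * (X + C a2) ^ p * (X + C a3) ^ p * (X + C a4) ^ p) =
      b1 * b2 * b3 * b4 + (b1 * b2 * b3 + b1 * b2 * b4 + b1 * b3 * b4 + b2 * b3 * b4) * Z +
      E1 * (b2 * b3 * b4 + (b2 * b3 + b2 * b4 + b3 * b4) * Z) +
      E2 * (b1 * b3 * b4 + (b1 * b3 + b1 * b4 + b3 * b4) * Z) +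
      E3 * (b1 * b2 * b4 + (b1 * b2 + b1 * b4 + b2 * b4) * Z) +
      E4 * (b1 * b2 * b3 + (b1 * b2 + b1 * b3 + b2 * b3) * Z) +
      (E1 * E2 * (b3 * b4) + E1 * E3 * (b2 * b4) + E1 * E4 * (b2 * b3) + E2 * E3 * (b1 * b4) +
        E2 * E4 * (b1 * b3) + E3 * E4 * (b1 * b2)) +
      p ^ 2 * Z * (LL p z a1 a2 * (b3 + b4) + LL p z a1 a3 * (b2 + b4) + LL p z a1 a4 * (b2 + b3) +
        LL p z a2 a3 * (b1 + b4) + LL p z a2 a4 * (b1 + b3) + LL p z a3 a4 * (b1 + b2)) +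
      p ^ 3 * r := by
  have hpos := hp.pos
  have d1 := natDegree_ee hp a1
  have d2 := natDegree_ee hp a2
  have d3 := natDegree_ee hp a3
  have d4 := natDegree_ee hp a4
  rw [pow_eq_ee hp, pow_eq_ee hp, pow_eq_ee hp, pow_eq_ee hp, hb1, hb2, hb3, hb4]
  have v : ∀ a b E : R, a ^ p = b → (z + a) ^ p - Z - b = E → E = p * eval z (ee p a) := by
    intro a b E h1 h2
    rw [eval_ee, ← h2, dl_spec p hp, hZ, h1]
    ring
  rw [v _ _ _ hb1 hE1, v _ _ _ hb2 hE2, v _ _ _ hb3 hE3, v _ _ _ hb4 hE4]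
  unfold LL
  generalize ee p a1 = e1 at *
  generalize ee p a2 = e2 at *
  generalize ee p a3 = e3 at *
  generalize ee p a4 = e4 at *
  have t0 : Tr (2 * p) z 1 = 1 := by rw [Tr_eval _ _ _ (by simp; omega), eval_one]
  have t1 : ∀ F : R[X], Tr (2 * p) z (X ^ p * F) = Z * Tr p z F := by
    intro F
    rw [two_mul, Tr_X_pow_mul, hZ]
  have t2 : Tr p z 1 = 1 := by rw [Tr_eval _ _ _ (by simp; omega), eval_one]
  have t3 : ∀ F : R[X], F.natDegree ≤ p - 1 → Tr p z F = eval z F :=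
    fun F h => Tr_eval _ _ _ (by omega)
  have t4 : ∀ F : R[X], F.natDegree ≤ p - 1 → Tr (2 * p) z F = eval z F :=
    fun F h => Tr_eval _ _ _ (by omega)
  have t5 : ∀ F G : R[X], F.natDegree ≤ p - 1 → G.natDegree ≤ p - 1 →
      Tr (2 * p) z (F * G) = eval z F * eval z G := by
    intro F G h1 h2
    rw [Tr_eval _ _ _ (lt_of_le_of_lt (natDegree_mul_le_of_le h1 h2) (by omega)), eval_mul]
  set P : R := (p : R) with hP
  have e : (X ^ p + C b1 + C P * e1) * (X ^ p + C b2 + C P * e2) * (X ^ p + C b3 + C P * e3) *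
      (X ^ p + C b4 + C P * e4) =
      C (b1 * b2 * b3 * b4) * 1 +
      C (b1 * b2 * b3 + b1 * b2 * b4 + b1 * b3 * b4 + b2 * b3 * b4) * (X ^ p * 1) +
      (C (P * (b2 * b3 * b4)) * e1 + C (P * (b2 * b3 + b2 * b4 + b3 * b4)) * (X ^ p * e1)) +
      (C (P * (b1 * b3 * b4)) * e2 + C (P * (b1 * b3 + b1 * b4 + b3 * b4)) * (X ^ p * e2)) +
      (C (P * (b1 * b2 * b4)) * e3 + C (P * (b1 * b2 + b1 * b4 + b2 * b4)) * (X ^ p * e3)) +
      (C (P * (b1 * b2 * b3)) * e4 + C (P * (b1 * b2 + b1 * b3 + b2 * b3)) * (X ^ p * e4)) +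
      (C (P ^ 2 * (b3 * b4)) * (e1 * e2) + C (P ^ 2 * (b3 + b4)) * (X ^ p * (e1 * e2))) +
      (C (P ^ 2 * (b2 * b4)) * (e1 * e3) + C (P ^ 2 * (b2 + b4)) * (X ^ p * (e1 * e3))) +
      (C (P ^ 2 * (b2 * b3)) * (e1 * e4) + C (P ^ 2 * (b2 + b3)) * (X ^ p * (e1 * e4))) +
      (C (P ^ 2 * (b1 * b4)) * (e2 * e3) + C (P ^ 2 * (b1 + b4)) * (X ^ p * (e2 * e3))) +
      (C (P ^ 2 * (b1 * b3)) * (e2 * e4) + C (P ^ 2 * (b1 + b3)) * (X ^ p * (e2 * e4))) +
      (C (P ^ 2 * (b1 * b2)) * (e3 * e4) + C (P ^ 2 * (b1 + b2)) * (X ^ p * (e3 * e4))) +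
      X ^ (2 * p) * (C (b1 * b2 + b1 * b3 + b1 * b4 + b2 * b3 + b2 * b4 + b3 * b4) +
        C (b1 + b2 + b3 + b4) * X ^ p + X ^ (2 * p) +
        C P * (e1 * (C (b2 + b3 + b4) + X ^ p) + e2 * (C (b1 + b3 + b4) + X ^ p) +
          e3 * (C (b1 + b2 + b4) + X ^ p) + e4 * (C (b1 + b2 + b3) + X ^ p)) +
        C (P ^ 2) * (e1 * e2 + e1 * e3 + e1 * e4 + e2 * e3 + e2 * e4 + e3 * e4)) +
      C (P ^ 3) * (e1 * e2 * e3 * (C b4 + X ^ p) + e1 * e2 * e4 * (C b3 + X ^ p) +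
        e1 * e3 * e4 * (C b2 + X ^ p) + e2 * e3 * e4 * (C b1 + X ^ p) +
        C P * (e1 * e2 * e3 * e4)) := by
    rw [mul_comm 2 p, pow_mul]
    simp only [map_mul, map_add, map_pow]
    generalize (X : R[X]) ^ p = Y
    ring
  rw [e]
  generalize (e1 * e2 * e3 * (C b4 + X ^ p) + e1 * e2 * e4 * (C b3 + X ^ p) +
        e1 * e3 * e4 * (C b2 + X ^ p) + e2 * e3 * e4 * (C b1 + X ^ p) +
        C P * (e1 * e2 * e3 * e4)) = W
  refine ⟨Tr (2 * p) z W, ?_⟩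
  simp only [Tr_add, Tr_C_mul, Tr_X_pow_self, t0, t1, t2, t3 _ d1, t3 _ d2, t3 _ d3, t3 _ d4,
    t4 _ d1, t4 _ d2, t4 _ d3, t4 _ d4, t5 _ _ d1 d2, t5 _ _ d1 d3, t5 _ _ d1 d4, t5 _ _ d2 d3,
    t5 _ _ d2 d4, t5 _ _ d3 d4]
  ring

lemma map_LL {S : Type*} [CommRing S] (f : R →+* S) (p : ℕ) [Fact p.Prime] [CharP S p]
    (h3 : 3 < p) (z a b : R) :
    f (LL p z a b) = TT p (-f z * f b) (-f z * f a) (f a * f b) := by
  rw [LL, Tr_mul, TT, map_sum]
  apply sum_congr rfl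
  intro l hl
  have hl := mem_range.1 hl
  rw [map_sum]
  apply sum_congr rfl
  intro k hk
  have hk := mem_range.1 hk
  rw [coeff_ee p a k (by omega), coeff_ee p b l (by omega)]
  simp only [map_mul, map_natCast, map_pow]
  rw [choose_div p h3 (by omega), choose_div p h3 (by omega)]
  obtain ⟨t, ht⟩ : ∃ t, p = l + k + t := ⟨p - l - k, by omega⟩
  rw [show p - k = l + t by omega, show p - l - k = t by omega, show p - l = k + t by omega,
    mul_pow, mul_pow, mul_pow, neg_pow (f z), neg_pow (f z)]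
  ring

end

end Pool.Agent.P.MP_9db4f5_nt
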