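import Pool.Agent.P.MP_9db4f5_nt.Trunc
import Pool.Agent.P.MP_9db4f5_nt.Red

namespace Pool.Agent.P.MP_9db4f5_nt

open Finset

section
variable {S : Type*} [CommRing S] (p : ℕ) [hp : Fact p.Prime] [CharP S p]

lemma TT_pair (h3 : 3 < p) (z a b : S) : TT p (-z * b) (-z * a) (a * b) =
    -b ^ p * l2 p (a + z) a - a ^ p * l2 p (b + z) b + (-z) ^ p * l2 p b a +
      l2 p (b * (a + z)) (a * (b + z)) := by
  rw [TT_eq p h3, l2_smul]
  have e1 : a * b - -z * b = b * (a + z) := by ring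
  have e2 : a * b - -z * a = a * (b + z) := by ring
  rw [e1, e2, l2_smul p a, mul_comm a b, l2_smul p b]
  ring

lemma l2_double (h3 : 3 < p) (x : S) :
    (1 + x ^ p) * l2 p x 1 = ∑ k ∈ range (2 * p), x ^ k * (k : S) ^ (p - 3) := by
  have e : l2 p x 1 = ∑ k ∈ range p, x ^ k * (k : S) ^ (p - 3) := by
    rw [l2, sum_range_succ, iv_self p h3]
    simp only [ne_eq, OfNat.ofNat_ne_zero, not_false_eq_true, zero_pow, zero_mul, add_zero]
    apply sum_congr rfl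
    intro k hk
    rw [iv_sq p h3 (mem_range.1 hk).le]
    ring
  rw [e, two_mul, sum_range_add, add_mul, one_mul, mul_sum]
  congr 1
  apply sum_congr rfl
  intro k _
  rw [Nat.cast_add, CharP.cast_eq_zero S p, zero_add]
  ring

lemma two_cancel (h3 : 3 < p) {x y : S} (h : 2 * x = 2 * y) : x = y := by
  have h1 := mul_iv (S := S) p (k := 2) (by norm_num) (by omega)
  push_cast at h1
  linear_combination iv p 2 * h - (x - y) * h1

lemma two_pow_char : (2 : S) ^ p = 2 := by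
  have := add_pow_char (1 : S) 1 p
  rw [one_pow, one_add_one_eq_two] at this
  exact this

variable (h3 : 3 < p) (I χ a E : S) (hI : I ^ 2 = -1) (hχ : χ ^ 2 = 1) (hj : I ^ p = χ * I)
include h3 hI hχ hj

lemma lam_I (hE : ∑ k ∈ range p, (-1) ^ k * (2 * (k : S) + 1) ^ (p - 3) = E) :
    2 * l2 p I 1 = (1 + χ * I) * (χ * E) ∧ 2 * l2 p (-I) 1 = (1 - χ * I) * (χ * E) := by
  have h1 := l2_double p h3 I
  have h2 := l2_double p h3 (-I)
  have h4 : ∑ k ∈ range (2 * p), I ^ k * (k : S) ^ (p - 3) -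
      ∑ k ∈ range (2 * p), (-I) ^ k * (k : S) ^ (p - 3) = 2 * I * E := by
    rw [← sum_sub_distrib, sum_even_odd, ← hE, mul_sum]
    apply sum_congr rfl
    intro k _
    rw [pow_succ, pow_succ, pow_mul, pow_mul, neg_sq, hI]
    push_cast
    ring
  have h5 : l2 p I 1 = χ * I * l2 p (-I) 1 := by
    rw [l2_symm p h3, ← hj, ← l2_smul]
    congr 1
    · linear_combination hI
    · ring
  rw [(p_odd p h3).neg_pow, hj] at h2
  rw [hj] at h1
  have h6 : 2 * l2 p (-I) 1 = (1 - χ * I) * (χ * E) := by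
    apply two_cancel p h3
    rw [← h1, ← h2, h5] at h4
    generalize l2 p (-I) 1 = L at *
    grind
  refine ⟨?_, h6⟩
  rw [h5]
  generalize l2 p (-I) 1 = L at *
  grind

lemma lam_1I (hl : l1 p (1 + I) 1 = -(1 + χ * I) * a)
    (hm : 2 * l2 p (-I) 1 = (1 - χ * I) * (χ * E)) :
    2 * l2 p (1 - I) 1 = χ * E + (χ * I - 1) * a ^ 2 := by
  have h := l1_sq p h3 (1 + I) 1
  have e1 : l2 p (1 + I - 1) (1 + I) = χ * I * l2 p (1 - I) 1 := by
    rw [l2_symm p h3, ← hj, ← l2_smul]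
    congr 1
    · linear_combination hI
    · ring
  rw [e1, hl, one_pow, add_pow_char, one_pow, hj, show 1 - (1 + I) = -I by ring] at h
  apply two_cancel p h3
  generalize l2 p (-I) 1 = L at *
  generalize l2 p (1 - I) 1 = L' at *
  grind

omit hI hχ hj in
lemma lam_2 (hl : l1 p (-1) 1 = -4 * a) : l2 p (2 : S) 1 = -4 * a ^ 2 := by
  have h := l1_sq p h3 (-1 : S) 1
  have e1 : l2 p (-1 - 1 : S) (-1) = (-1) ^ p * l2 p 2 1 := by
    rw [← l2_smul]
    congr 1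
    · ring
    · ring
  rw [e1, hl, one_pow, (p_odd p h3).neg_one_pow, show (1 : S) - -1 = 2 by ring] at h
  apply two_cancel p h3
  apply two_cancel p h3
  linear_combination h

theorem vals (hE : ∑ k ∈ range p, (-1) ^ k * (2 * (k : S) + 1) ^ (p - 3) = E)
    (hl1 : l1 p (1 + I) 1 = -(1 + χ * I) * a) (hl2 : l1 p (1 - I) 1 = -(1 - χ * I) * a)
    (hl3 : l1 p (-1) 1 = -4 * a) (T : S → S → S)
    (hT : ∀ x y, T x y = TT p (-(-1 + I) * y) (-(-1 + I) * x) (x * y)) (j e : S) (hjj : j = χ * I)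
    (he : e = χ * E) :
    T (1 - I) (1 - I) = 0 ∧
    2 * T (1 - I) (1 + I) = 2 * a ^ 2 - 2 * j * e + 2 * j * a ^ 2 ∧
    2 * T (1 - I) 1 = -e - j * e + 2 * j * a ^ 2 ∧
    2 * T (1 - I) 2 = -2 * e - 2 * j * e ∧
    2 * T (1 + I) (1 + I) = -4 * a ^ 2 - 4 * j * e + 4 * j * a ^ 2 ∧
    2 * T (1 + I) 1 = -e - 2 * a ^ 2 - 3 * j * e ∧
    2 * T (1 + I) 2 = -4 * j * e - 8 * j * a ^ 2 ∧
    2 * T 1 1 = -2 * e - 2 * j * e ∧
    2 * T 1 2 = -2 * e - 6 * a ^ 2 - 2 * j * e + 6 * j * a ^ 2 ∧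
    2 * T 2 2 = -4 * e + 8 * a ^ 2 - 4 * j * e ∧
    TT p (-(-2 * I) * 2) (-(-2 * I) * 2) (2 * 2) = -4 * e + 4 * a ^ 2 - 4 * j * a ^ 2 := by
  obtain ⟨v1, v2⟩ := lam_I p h3 I χ E hI hχ hj hE
  have v3 := lam_1I p h3 I χ a E hI hχ hj hl1 v2
  have v4 := lam_1I p h3 (-I) χ a E (by rw [neg_sq, hI]) hχ
    (by rw [(p_odd p h3).neg_pow, hj]; ring) (by rw [← sub_eq_add_neg, hl2]; ring)
    (by rw [neg_neg, v1]; ring)
  have v5 := lam_2 p h3 a hl3
  rw [sub_neg_eq_add] at v4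
  have hj2 : j ^ 2 = -1 := by rw [hjj]; linear_combination χ ^ 2 * hI - hχ
  rw [← hjj] at hj
  rw [mul_neg] at v4
  rw [← hjj, ← he] at v1 v2 v3 v4
  have q1 : (1 + I) ^ p = 1 + j := by rw [add_pow_char, one_pow, hj]
  have q2 : (1 - I) ^ p = 1 - j := by rw [sub_pow_char, one_pow, hj]
  have q3 := two_pow_char (S := S) p
  have q4 : (-(-1 + I)) ^ p = 1 - j := by rw [← q2]; congr 1; ring
  have sm : ∀ c x w x' w' : S, x' = c * x → w' = c * w → l2 p x' w' = c ^ p * l2 p x w := by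
    intro c x w x' w' h1 h2
    rw [h1, h2, l2_smul]
  have m1 : ∀ w, l2 p (1 - I + (-1 + I)) w = 0 := by
    intro w
    rw [show 1 - I + (-1 + I) = 0 by ring, l2_zero p h3]
  have o1 : ∀ c w, l2 p (c * (1 - I + (-1 + I))) w = 0 := by
    intro c w
    rw [show c * (1 - I + (-1 + I)) = 0 by ring, l2_zero p h3]
  have m2 : l2 p (1 + I + (-1 + I)) (1 + I) = (1 + j) * l2 p (1 + I) 1 := by
    rw [← q1]
    exact sm _ _ _ _ _ (by linear_combination -hI) (by ring)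
  have m3 : l2 p (1 + (-1 + I)) 1 = l2 p I 1 := by congr 1; ring
  have m4 : l2 p (2 + (-1 + I)) 2 = (1 + j) * l2 p (1 - I) 1 := by
    rw [← q1, l2_symm p h3]
    exact sm _ _ _ _ _ (by linear_combination hI) (by ring)
  have n12 : l2 p (1 + I) (1 - I) = (1 + j) * l2 p (-I) 1 := by
    rw [← q1, l2_symm p h3]
    exact sm _ _ _ _ _ (by linear_combination hI) (by ring)
  have n13 : l2 p 1 (1 - I) = l2 p (1 - I) 1 := l2_symm p h3 _ _
  have n14 : l2 p 2 (1 - I) = (1 - j) * l2 p (1 + I) 1 := by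
    rw [← q2]
    exact sm _ _ _ _ _ (by linear_combination hI) (by ring)
  have n23 : l2 p 1 (1 + I) = l2 p (1 + I) 1 := l2_symm p h3 _ _
  have n24 : l2 p 2 (1 + I) = (1 + j) * l2 p (1 - I) 1 := by
    rw [← q1]
    exact sm _ _ _ _ _ (by linear_combination hI) (by ring)
  have o23 : l2 p (1 * (1 + I + (-1 + I))) ((1 + I) * (1 + (-1 + I))) =
      (1 + j) * j * l2 p (1 - I) 1 := by
    rw [← q1, ← hj, ← mul_pow]
    exact sm _ _ _ _ _ (by linear_combination I * hI) (by ring)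
  have o24 : l2 p (2 * (1 + I + (-1 + I))) ((1 + I) * (2 + (-1 + I))) = 2 * j * l2 p 2 1 := by
    have : 2 * j = (2 * I) ^ p := by rw [mul_pow, q3, hj]
    rw [this]
    exact sm _ _ _ _ _ (by ring) (by linear_combination hI)
  have o34 : l2 p (2 * (1 + (-1 + I))) (1 * (2 + (-1 + I))) = (1 + j) * l2 p (1 + I) 1 := by
    rw [← q1]
    exact sm _ _ _ _ _ (by linear_combination -hI) (by ring)
  have y1 : l2 p (2 + -2 * I) 2 = 2 * l2 p (1 - I) 1 := by
    nth_rewrite 4 [← q3]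
    exact sm _ _ _ _ _ (by ring) (by ring)
  simp only [hT, TT_pair p h3, l2_self p h3, m1, o1, m2, m3, m4, n12, n13, n14, n23, n24, o23, o24,
    o34, y1, q1, q2, q3, q4, one_pow, v5]
  generalize l2 p I 1 = A at *
  generalize l2 p (-I) 1 = B at *
  generalize l2 p (1 - I) 1 = C at *
  generalize l2 p (1 + I) 1 = D at *
  clear * - v1 v2 v3 v4 hj2
  refine ⟨?_, ?_, ?_, ?_, ?_, ?_, ?_, ?_, ?_, ?_, ?_⟩ <;> grind

end

end Pool.Agent.P.MP_9db4f5_nt
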